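import Pool.Agent.Q191.Cn.Strip

/-! Counting the roots of `D_{2n}(z; c)` with real part larger than `-1/2`. -/

set_option autoImplicit false

open Finset Polynomial

namespace Q191.Cn

/-- `D_{2n}(z; c) = ∏_{j < 2n} (z - j) + (-1)ⁿ c` -/
noncomputable def D (n : ℕ) (c : ℝ) : ℂ[X] :=
  ∏ j ∈ range (2 * n), (X - C (j : ℂ)) + C ((-1) ^ n * (c : ℂ))

noncomputable def E (n : ℕ) (c : ℝ) : ℂ[X] :=
  ∏ k ∈ range n, (X - C ((((k : ℝ) + 1 / 2 : ℝ) : ℂ) ^ 2)) + C ((-1) ^ n * (c : ℂ))

theorem pair_gen {M : Type*} [CommMonoid M] (n : ℕ) (f : ℕ → M) :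
    ∏ m ∈ range (2 * n), f m = ∏ k ∈ range n, (f (n - 1 - k) * f (n + k)) := by
  rw [Finset.prod_mul_distrib, two_mul, Finset.prod_range_add, Finset.prod_range_reflect]

theorem D_comp (n : ℕ) (c : ℝ) :
    D n c = (E n c).comp ((X - C ((n : ℂ) - 1 / 2)) ^ 2) := by
  unfold D E
  rw [add_comp, C_comp, Polynomial.prod_comp, pair_gen n (fun j => X - C (j : ℂ))]
  congr 1
  apply Finset.prod_congr rfl
  intro k hk
  rw [mem_range] at hk
  rw [sub_comp, X_comp, C_comp, Nat.sub_sub, Nat.cast_sub (by omega)]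
  push_cast
  simp only [map_sub, map_add, map_pow, map_one]
  have h2 : (2 : ℂ[X]) * C (1 / 2) = 1 := by
    rw [← map_ofNat C 2, ← C_mul]; norm_num
  linear_combination (-(X - C (n : ℂ) - C (k : ℂ))) * h2

theorem E_monic {n : ℕ} (hn : 0 < n) (c : ℝ) : (E n c).Monic ∧ (E n c).natDegree = n := by
  have m : (∏ k ∈ range n, (X - C ((((k : ℝ) + 1 / 2 : ℝ) : ℂ) ^ 2))).Monic :=
    monic_prod_of_monic _ _ fun k _ => monic_X_sub_C _
  have dn : (∏ k ∈ range n, (X - C ((((k : ℝ) + 1 / 2 : ℝ) : ℂ) ^ 2))).natDegree = n := by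
    rw [natDegree_prod_of_monic _ _ fun k _ => monic_X_sub_C _,
      Finset.sum_congr rfl (fun k _ => natDegree_X_sub_C _)]
    simp
  have d : (C ((-1) ^ n * (c : ℂ))).degree <
      (∏ k ∈ range n, (X - C ((((k : ℝ) + 1 / 2 : ℝ) : ℂ) ^ 2))).degree := by
    rw [degree_eq_natDegree m.ne_zero, dn]
    refine lt_of_le_of_lt degree_C_le ?_
    exact_mod_cast hn
  refine ⟨m.add_of_left d, ?_⟩
  unfold E
  rw [natDegree_add_eq_left_of_degree_lt d, dn]

theorem E_eval (n : ℕ) (c : ℝ) (w : ℂ) : (E n c).eval (w ^ 2) = P n w + (-1) ^ n * (c : ℂ) := by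
  unfold E P
  rw [eval_add, eval_C, eval_prod]
  simp

/-- a square root with nonnegative real part -/
theorem exists_root (β : ℂ) : ∃ γ : ℂ, γ ^ 2 = β ∧ 0 ≤ γ.re := by
  obtain ⟨w, hw⟩ := exists_sqrt β
  rcases le_total 0 w.re with h | h
  · exact ⟨w, hw, h⟩
  · exact ⟨-w, by rw [neg_sq]; exact hw, by simpa using h⟩

theorem count_iff {n : ℕ} (hn : 0 < n) (c : ℝ) :
    Multiset.card ((D n c).roots.filter (fun z => -1 / 2 < z.re)) = n ↔ Out n c := by
  classical
  obtain ⟨mE, dE⟩ := E_monic hn c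
  have sp : (E n c).Splits := IsAlgClosed.splits _
  have e1 := sp.eq_prod_roots_of_monic mE
  have card : Multiset.card (E n c).roots = n := by rw [← sp.natDegree_eq_card_roots, dE]
  choose γ hγ hγ0 using exists_root
  obtain ⟨κ, hκ⟩ : ∃ κ : ℂ, κ = (n : ℂ) - 1 / 2 := ⟨_, rfl⟩
  have hκre : κ.re = (n : ℝ) - 1 / 2 := by rw [hκ]; simp
  have e2 : D n c = (((E n c).roots.map (fun β => κ + γ β) +
      (E n c).roots.map (fun β => κ - γ β)).map (fun a => X - C a)).prod := by
    rw [D_comp, ← hκ]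
    nth_rewrite 1 [e1]
    rw [multiset_prod_comp, Multiset.map_map, Multiset.map_add, Multiset.prod_add,
      Multiset.map_map, Multiset.map_map, ← Multiset.prod_map_mul]
    congr 1
    apply Multiset.map_congr rfl
    intro β _
    simp only [Function.comp_apply]
    rw [sub_comp, X_comp, C_comp]
    nth_rewrite 1 [← hγ β]
    simp only [map_add, map_sub, map_pow]
    ring
  have roots : (D n c).roots = (E n c).roots.map (fun β => κ + γ β) +
      (E n c).roots.map (fun β => κ - γ β) := by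
    rw [e2, roots_multiset_prod_X_sub_C]
  have n1 : (1 : ℝ) ≤ n := by exact_mod_cast hn
  have c1 : Multiset.card (Multiset.filter (fun z : ℂ => -1 / 2 < z.re)
      ((E n c).roots.map (fun β => κ + γ β))) = n := by
    rw [Multiset.filter_eq_self.2, Multiset.card_map, card]
    intro z hz
    obtain ⟨β, _, rfl⟩ := Multiset.mem_map.1 hz
    rw [Complex.add_re, hκre]
    have := hγ0 β
    linarith
  rw [roots, Multiset.filter_add, Multiset.card_add, c1]
  constructor
  · intro h w hw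
    have h0 : Multiset.filter (fun z : ℂ => -1 / 2 < z.re)
      ((E n c).roots.map (fun β => κ - γ β)) = 0 := Multiset.card_eq_zero.1 (by omega)
    have hmem : w ^ 2 ∈ (E n c).roots := by
      rw [mem_roots mE.ne_zero, IsRoot.def, E_eval]
      exact hw
    have h1 : κ - γ (w ^ 2) ∉ Multiset.filter (fun z : ℂ => -1 / 2 < z.re)
      ((E n c).roots.map (fun β => κ - γ β)) := by rw [h0]; exact Multiset.notMem_zero _
    rw [Multiset.mem_filter] at h1
    have h2 : ¬ (-1 / 2 < (κ - γ (w ^ 2)).re) := fun h => h1 ⟨Multiset.mem_map_of_mem _ hmem, h⟩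
    rw [Complex.sub_re, hκre] at h2
    have h3 : (γ (w ^ 2) - w) * (γ (w ^ 2) + w) = 0 := by
      linear_combination hγ (w ^ 2)
    rcases mul_eq_zero.1 h3 with h | h
    · have e : γ (w ^ 2) = w := by linear_combination h
      rw [e] at h2
      have := le_abs_self w.re
      linarith
    · have e : γ (w ^ 2) = -w := by linear_combination h
      rw [e, Complex.neg_re] at h2
      have := neg_le_abs w.re
      linarith
  · intro h
    have h0 : Multiset.filter (fun z : ℂ => -1 / 2 < z.re)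
      ((E n c).roots.map (fun β => κ - γ β)) = 0 := by
      rw [Multiset.filter_eq_nil]
      intro z hz
      obtain ⟨β, hβ, rfl⟩ := Multiset.mem_map.1 hz
      rw [mem_roots mE.ne_zero, IsRoot.def, ← hγ β, E_eval] at hβ
      have := h _ hβ
      rw [abs_of_nonneg (hγ0 β)] at this
      rw [Complex.sub_re, hκre]
      linarith
    rw [h0]
    simp

/-- existence and uniqueness of `y` -/
theorem exists_y {n : ℕ} (hn : 2 ≤ n) : ∃ y : ℝ, 0 < y ∧ Sm (2 * n) y = Real.pi := by
  have hpi := Real.pi_pos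
  have n2 : (2 : ℝ) ≤ n := by exact_mod_cast hn
  -- large `y`
  obtain ⟨Y, hY⟩ : ∃ Y : ℝ, Y = ((2 * n : ℕ) : ℝ) ^ 2 := ⟨_, rfl⟩
  have Y0 : 0 < Y := by rw [hY]; push_cast; positivity
  have h1 : Sm (2 * n) Y ≤ Real.pi := by
    refine (Sm_le _ Y0).trans ?_
    rw [hY, div_le_iff₀ (by push_cast; positivity)]
    have : (0 : ℝ) < ((2 * n : ℕ) : ℝ) ^ 2 := by push_cast; positivity
    have := Real.pi_gt_three
    nlinarith
  -- small `y`
  have h2 : Real.pi ≤ Sm (2 * n) (1 / 10) := by
    have : ∑ k ∈ range 4, Real.arctan (((k : ℝ) + 1 / 2) / (1 / 10)) ≤ Sm (2 * n) (1 / 10) := by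
      unfold Sm
      apply Finset.sum_le_sum_of_subset_of_nonneg (range_subset_range.2 (by omega))
      intro k _ _
      exact (arctan_pos' (by norm_num)).le
    refine le_trans ?_ this
    have a : ∀ k ∈ range 4, Real.pi / 4 ≤ Real.arctan (((k : ℝ) + 1 / 2) / (1 / 10)) := by
      intro k _
      rw [← Real.arctan_one]
      apply Real.arctan_strictMono.monotone
      have : (0 : ℝ) ≤ k := Nat.cast_nonneg k
      linarith
    have s := Finset.sum_le_sum a
    rw [Finset.sum_const, card_range, nsmul_eq_mul] at s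
    push_cast at s
    linarith
  have Y1 : (1 / 10 : ℝ) ≤ Y := by
    rw [hY]; push_cast; nlinarith
  have cont : ContinuousOn (Sm (2 * n)) (Set.Icc (1 / 10) Y) := fun y hy =>
    (dSm _ (show (0 : ℝ) < y by linarith [hy.1])).continuousAt.continuousWithinAt
  obtain ⟨y, hy, hy2⟩ := intermediate_value_Icc' Y1 cont ⟨h1, h2⟩
  exact ⟨y, by linarith [hy.1], hy2⟩

theorem main {n : ℕ} (hn : 0 < n) : ∃ cn : ℝ,
    {c : ℝ | Multiset.card ((D n c).roots.filter (fun z => -1 / 2 < z.re)) = n} = Set.Ici cn ∧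
    0 < cn ∧ 2 * (n : ℝ) ^ 2 / Real.pi < cn ^ (1 / (2 * (n : ℝ))) ∧
    cn ^ (1 / (2 * (n : ℝ))) < n / Real.sin (Real.pi / (2 * n)) := by
  have hpi := Real.pi_pos
  rcases Nat.lt_or_ge n 2 with h | h
  · obtain rfl : n = 1 := by omega
    refine ⟨3 / 4, ?_, by norm_num, ?_, ?_⟩
    · ext c
      rw [Set.mem_ofPred_eq, count_iff hn, Out_one]
      rfl
    · have e : ((3 / 4 : ℝ)) ^ (1 / (2 * ((1 : ℕ) : ℝ))) = Real.sqrt (3 / 4) := by
        rw [Real.sqrt_eq_rpow]; norm_num
      rw [e]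
      apply Real.lt_sqrt_of_sq_lt
      rw [div_pow, div_lt_iff₀ (by positivity)]
      push_cast
      nlinarith [Real.pi_gt_three]
    · have e : ((3 / 4 : ℝ)) ^ (1 / (2 * ((1 : ℕ) : ℝ))) = Real.sqrt (3 / 4) := by
        rw [Real.sqrt_eq_rpow]; norm_num
      rw [e]
      push_cast
      rw [mul_one, Real.sin_pi_div_two, div_one, Real.sqrt_lt' one_pos]
      norm_num
  · obtain ⟨y, hy0, hS⟩ := exists_y h
    obtain ⟨hy1, hlow⟩ := lower_final h hy0 hS
    have n0 : (0 : ℝ) < n := by exact_mod_cast hn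
    have e : Real.exp (Lm (2 * n) y) ^ (1 / (2 * (n : ℝ))) =
        Real.exp (Lm (2 * n) y / (2 * n)) := by
      rw [← Real.exp_mul]
      congr 1
      ring
    refine ⟨Real.exp (Lm (2 * n) y), ?_, Real.exp_pos _, ?_, ?_⟩
    · ext c
      rw [Set.mem_ofPred_eq, count_iff hn, Set.mem_Ici]
      constructor
      · intro hout
        by_contra hcon
        push Not at hcon
        rcases le_or_gt c 0 with hc | hc
        · exact strip_of_nonpos hn hc hout
        · exact strip_of_lt h hy0 hS hc hcon hout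
      · intro hc
        exact out_of_ge hn hy0 hS hy1 hc
    · rw [e, ← Real.log_lt_iff_lt_exp (by positivity)]
      exact hlow
    · have k := K2_lt (N := 2 * n) (by omega) hy0
      unfold K2 at k
      rw [hS] at k
      have s0 : 0 < Real.sin (Real.pi / (2 * n)) := by
        apply Real.sin_pos_of_pos_of_lt_pi (by positivity)
        rw [div_lt_iff₀ (by positivity)]
        have : (2 : ℝ) ≤ n := by exact_mod_cast h
        nlinarith
      rw [e, ← Real.lt_log_iff_exp_lt (by positivity), Real.log_div n0.ne' s0.ne']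
      push_cast at k
      have e2 : (2 * (n : ℝ)) / 2 = n := by ring
      rw [e2] at k
      linarith

end Q191.Cn
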