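import Pool.Agent.Q191.Cn.Lower

/-! Lower bound: the final inequality. -/

set_option autoImplicit false

open Finset Filter Topology

namespace Q191.Cn

theorem Sm_anti {N : ℕ} (hN : 0 < N) {y z : ℝ} (hy : 0 < y) (hyz : y < z) : Sm N z < Sm N y := by
  unfold Sm
  apply Finset.sum_lt_sum_of_nonempty (nonempty_range_iff.2 hN.ne')
  intro m _
  apply Real.arctan_strictMono
  exact div_lt_div_of_pos_left (by positivity) hy hyz

theorem Lm_mono {N : ℕ} {y z : ℝ} (hy : 0 < y) (hyz : y ≤ z) : Lm N y ≤ Lm N z := by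
  unfold Lm
  apply Finset.sum_le_sum
  intro m _
  apply div_le_div_of_nonneg_right _ (by norm_num)
  apply Real.log_le_log (by positivity)
  have : y ^ 2 ≤ z ^ 2 := pow_le_pow_left₀ hy.le hyz 2
  linarith

theorem T0_le {X : ℝ} (hX : 0 < X) : T0 X ≤ X / 2 := by
  have m := mono_of (f := fun t => t ^ 2 / 2 - (t * Real.arctan t - Real.log (1 + t ^ 2) / 2))
    (f' := fun t => t - Real.arctan t) hX.le (fun t _ _ => by
      have h2 : HasDerivAt (fun t : ℝ => t ^ 2 / 2) t t := by
        have := (hasDerivAt_pow 2 t).div_const 2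
        refine this.congr_deriv ?_
        push_cast; ring
      have d1 : HasDerivAt (fun t : ℝ => t * Real.arctan t)
          (1 * Real.arctan t + t * (1 / (1 + t ^ 2))) t := (hasDerivAt_id t).mul (darc t)
      refine (h2.sub (d1.sub ((dlog1 t).div_const 2))).congr_deriv ?_
      have h0 : 0 < 1 + t ^ 2 := by positivity
      field_simp
      ring) (fun t ht _ => by
      have := arctan_le_self' ht
      linarith)
  have e : X * T0 X = X * Real.arctan X - Real.log (1 + X ^ 2) / 2 := by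
    unfold T0; field_simp
  have z : (0 : ℝ) ^ 2 / 2 - (0 * Real.arctan 0 - Real.log (1 + 0 ^ 2) / 2) = 0 := by norm_num
  simp only [z] at m
  rw [← e] at m
  have : X * T0 X ≤ X * (X / 2) := by nlinarith
  exact le_of_mul_le_mul_left this hX

/-- midpoint sum of `arctan` -/
theorem sum_arctan {N : ℕ} (hN : 0 < N) {h : ℝ} (hh : 0 < h) :
    (N * h) * T0 (N * h) + (1 / (1 + (N * h) ^ 2) ^ 2) * (N * h) ^ 2 * h ^ 2 / 24 ≤
      h * ∑ m ∈ range N, Real.arctan (((m : ℝ) + 1 / 2) * h) := by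
  have hN0 : (0 : ℝ) < N := by exact_mod_cast hN
  obtain ⟨X, hX⟩ : ∃ X : ℝ, X = N * h := ⟨_, rfl⟩
  have X0 : 0 < X := by rw [hX]; positivity
  obtain ⟨κ, hκ⟩ : ∃ κ : ℝ, κ = 1 / (1 + X ^ 2) ^ 2 := ⟨_, rfl⟩
  have hp : ∀ (k : ℕ) (t : ℝ), HasDerivAt (fun t : ℝ => t ^ (k + 1)) ((k + 1) * t ^ k) t := by
    intro k t
    have := hasDerivAt_pow (k + 1) t
    refine this.congr_deriv ?_
    push_cast
    simp
  have hc : ConcaveOn ℝ (Set.Icc 0 (N * h)) (fun t => Real.arctan t + κ * t ^ 3 / 3) := by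
    rw [← hX]
    refine concave_of (f' := fun t => 1 / (1 + t ^ 2) + κ * t ^ 2)
      (f'' := fun t => -(2 * t) / (1 + t ^ 2) ^ 2 + κ * (2 * t)) ?_ ?_ ?_
    · intro t
      refine ((darc t).add (((hp 2 t).const_mul κ).div_const 3)).congr_deriv ?_
      push_cast
      ring
    · intro t
      have h0 : (1 + t ^ 2) ≠ 0 := by positivity
      have h1 : HasDerivAt (fun t : ℝ => 1 + t ^ 2) (2 * t) t := by
        have := (hasDerivAt_pow 2 t).const_add 1
        simpa using this
      have d := (h1.inv h0).add ((hp 1 t).const_mul κ)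
      simp only [one_div]
      refine d.congr_deriv ?_
      push_cast
      ring
    · intro t ht htX
      have e : -(2 * t) / (1 + t ^ 2) ^ 2 + κ * (2 * t) =
          2 * t * (κ - 1 / (1 + t ^ 2) ^ 2) := by ring
      rw [e, hκ]
      apply mul_nonpos_of_nonneg_of_nonpos (by positivity)
      rw [sub_nonpos]
      apply one_div_le_one_div_of_le (by positivity)
      have : t ^ 2 ≤ X ^ 2 := pow_le_pow_left₀ ht htX 2
      gcongr
  have hΦ : ∀ t, HasDerivAt (fun t : ℝ => t * Real.arctan t - Real.log (1 + t ^ 2) / 2 +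
      κ * t ^ 4 / 12) (Real.arctan t + κ * t ^ 3 / 3) t := by
    intro t
    have d1 : HasDerivAt (fun t : ℝ => t * Real.arctan t)
        (1 * Real.arctan t + t * (1 / (1 + t ^ 2))) t := (hasDerivAt_id t).mul (darc t)
    refine ((d1.sub ((dlog1 t).div_const 2)).add (((hp 3 t).const_mul κ).div_const 12)).congr_deriv ?_
    have h0 : 0 < 1 + t ^ 2 := by positivity
    push_cast
    field_simp
    ring
  have c := cells N hΦ hc hh.le
  rw [← hX] at c ⊢
  rw [← hκ]
  have z : (0 : ℝ) * Real.arctan 0 - Real.log (1 + 0 ^ 2) / 2 + κ * 0 ^ 4 / 12 = 0 := by norm_num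
  rw [z, sub_zero, Finset.sum_add_distrib] at c
  have e1 : ∑ m ∈ range N, κ * (((m : ℝ) + 1 / 2) * h) ^ 3 / 3 =
      κ * h ^ 3 / 3 * ((N : ℝ) ^ 4 / 4 - N ^ 2 / 8) := by
    rw [← sum_cube, Finset.mul_sum]
    exact Finset.sum_congr rfl fun m _ => by ring
  rw [e1] at c
  have e2 : X * T0 X = X * Real.arctan X - Real.log (1 + X ^ 2) / 2 := by
    unfold T0; field_simp
  have e3 : h * (κ * h ^ 3 / 3 * ((N : ℝ) ^ 4 / 4 - N ^ 2 / 8)) =
      κ * X ^ 4 / 12 - κ * X ^ 2 * h ^ 2 / 24 := by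
    rw [hX]; ring
  rw [mul_add, e3] at c
  linarith

/-- midpoint sum of `log (1 + t²) / 2` -/
theorem sum_log {N : ℕ} (hN : 0 < N) {h : ℝ} (hh : 0 < h) :
    (N * h) * ((Real.log (1 + (N * h) ^ 2) - 2 + 2 * Real.arctan (N * h) / (N * h)) / 2) -
      (N * h) * h ^ 2 / 24 ≤
      h * ∑ m ∈ range N, Real.log (1 + (((m : ℝ) + 1 / 2) * h) ^ 2) / 2 := by
  have hN0 : (0 : ℝ) < N := by exact_mod_cast hN
  obtain ⟨X, hX⟩ : ∃ X : ℝ, X = N * h := ⟨_, rfl⟩
  have X0 : 0 < X := by rw [hX]; positivity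
  have hc : ConcaveOn ℝ (Set.Icc 0 (N * h)) (fun t => Real.log (1 + t ^ 2) / 2 - t ^ 2 / 2) := by
    rw [← hX]
    refine concave_of (f' := fun t => t / (1 + t ^ 2) - t)
      (f'' := fun t => (1 - t ^ 2) / (1 + t ^ 2) ^ 2 - 1) ?_ ?_ ?_
    · intro t
      have h2 : HasDerivAt (fun t : ℝ => t ^ 2 / 2) t t := by
        have := (hasDerivAt_pow 2 t).div_const 2
        refine this.congr_deriv ?_
        push_cast; ring
      refine (((dlog1 t).div_const 2).sub h2).congr_deriv ?_
      ring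
    · intro t
      have h0 : (1 + t ^ 2) ≠ 0 := by positivity
      have h1 : HasDerivAt (fun t : ℝ => 1 + t ^ 2) (2 * t) t := by
        have := (hasDerivAt_pow 2 t).const_add 1
        simpa using this
      refine (((hasDerivAt_id t).div h1 h0).sub (hasDerivAt_id t)).congr_deriv ?_
      simp only [id]
      field_simp
      ring
    · intro t _ _
      rw [sub_nonpos, div_le_one (by positivity)]
      nlinarith [sq_nonneg t, sq_nonneg (t ^ 2)]
  have hΦ : ∀ t, HasDerivAt (fun t : ℝ => (t * Real.log (1 + t ^ 2) - 2 * t + 2 * Real.arctan t) / 2 -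
      t ^ 3 / 6) (Real.log (1 + t ^ 2) / 2 - t ^ 2 / 2) t := by
    intro t
    have d1 : HasDerivAt (fun t : ℝ => t * Real.log (1 + t ^ 2))
        (1 * Real.log (1 + t ^ 2) + t * (2 * t / (1 + t ^ 2))) t := (hasDerivAt_id t).mul (dlog1 t)
    have h3 : HasDerivAt (fun t : ℝ => t ^ 3 / 6) (t ^ 2 / 2) t := by
      have := (hasDerivAt_pow 3 t).div_const 6
      refine this.congr_deriv ?_
      push_cast; ring
    have h2 : HasDerivAt (fun t : ℝ => 2 * t) 2 t := by
      simpa using (hasDerivAt_id t).const_mul (2 : ℝ)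
    refine ((((d1.sub h2).add ((darc t).const_mul 2)).div_const 2).sub h3).congr_deriv ?_
    have h0 : 0 < 1 + t ^ 2 := by positivity
    field_simp
    ring
  have c := cells N hΦ hc hh.le
  rw [← hX] at c ⊢
  have z : ((0 : ℝ) * Real.log (1 + 0 ^ 2) - 2 * 0 + 2 * Real.arctan 0) / 2 - 0 ^ 3 / 6 = 0 := by
    norm_num
  rw [z, sub_zero, Finset.sum_sub_distrib] at c
  have e1 : ∑ m ∈ range N, (((m : ℝ) + 1 / 2) * h) ^ 2 / 2 =
      h ^ 2 / 2 * ((N : ℝ) ^ 3 / 3 - N / 12) := by
    rw [← sum_sq, Finset.mul_sum]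
    exact Finset.sum_congr rfl fun m _ => by ring
  rw [e1] at c
  have e3 : h * (h ^ 2 / 2 * ((N : ℝ) ^ 3 / 3 - N / 12)) = X ^ 3 / 6 - X * h ^ 2 / 24 := by
    rw [hX]; ring
  rw [mul_sub, e3] at c
  have e2 : X * ((Real.log (1 + X ^ 2) - 2 + 2 * Real.arctan X / X) / 2) =
      (X * Real.log (1 + X ^ 2) - 2 * X + 2 * Real.arctan X) / 2 := by
    field_simp
  rw [e2]
  linarith

/-- **Lower bound** for `N / y ≤ 3/5`. -/
theorem lower_gen {N : ℕ} (hN : 0 < N) {y : ℝ} (hy : 0 < y) (hX : N / y ≤ 3 / 5) :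
    Real.log ((N : ℝ) ^ 2 / 2) < Lm N y / N + Real.log (Sm N y) := by
  have hN0 : (0 : ℝ) < N := by exact_mod_cast hN
  obtain ⟨h, hh⟩ : ∃ h : ℝ, h = 1 / y := ⟨_, rfl⟩
  have h0 : 0 < h := by rw [hh]; positivity
  have hyh : y = 1 / h := by rw [hh]; field_simp
  obtain ⟨X, hXd⟩ : ∃ X : ℝ, X = N * h := ⟨_, rfl⟩
  have X0 : 0 < X := by rw [hXd]; positivity
  have X1 : X ≤ 3 / 5 := by
    have : X = N / y := by rw [hXd, hh]; ring
    rw [this]; exact hX
  have N1 : (1 : ℝ) ≤ N := by exact_mod_cast hN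
  have hX' : h ≤ X := by rw [hXd]; nlinarith
  have a := sum_arctan hN h0
  have b := sum_log hN h0
  rw [← hXd] at a b
  obtain ⟨κ, hκ⟩ : ∃ κ : ℝ, κ = 1 / (1 + X ^ 2) ^ 2 := ⟨_, rfl⟩
  rw [← hκ] at a
  have eS : ∑ m ∈ range N, Real.arctan (((m : ℝ) + 1 / 2) * h) = Sm N y := by
    unfold Sm
    exact Finset.sum_congr rfl fun m _ => by rw [hh]; congr 1; ring
  have eL : Lm N y = N * Real.log y +
      ∑ m ∈ range N, Real.log (1 + (((m : ℝ) + 1 / 2) * h) ^ 2) / 2 := by
    unfold Lm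
    have : ∀ m ∈ range N, Real.log (((m : ℝ) + 1 / 2) ^ 2 + y ^ 2) / 2 =
        Real.log y + Real.log (1 + (((m : ℝ) + 1 / 2) * h) ^ 2) / 2 := by
      intro m _
      have e : ((m : ℝ) + 1 / 2) ^ 2 + y ^ 2 = y ^ 2 * (1 + (((m : ℝ) + 1 / 2) * h) ^ 2) := by
        rw [hh]; field_simp; ring
      rw [e, Real.log_mul (by positivity) (by positivity), Real.log_pow]
      push_cast; ring
    rw [Finset.sum_congr rfl this, Finset.sum_add_distrib]
    simp
  rw [eS] at a
  obtain ⟨G, hG⟩ : ∃ G, G = ∑ m ∈ range N, Real.log (1 + (((m : ℝ) + 1 / 2) * h) ^ 2) / 2 :=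
    ⟨_, rfl⟩
  rw [← hG] at b eL
  have T0p := T0_pos X0 (by linarith : X ≤ 1)
  have T0l := T0_le X0
  have κ0 : 0 < κ := by rw [hκ]; positivity
  -- the arctangent part
  have s1 : X * T0 X * (1 + κ * h ^ 2 / 12) / h ≤ Sm N y := by
    rw [div_le_iff₀ h0]
    have : X * T0 X * (κ * h ^ 2 / 12) ≤ κ * X ^ 2 * h ^ 2 / 24 := by
      have : κ * X ^ 2 * h ^ 2 / 24 = X * (X / 2) * (κ * h ^ 2 / 12) := by ring
      rw [this]
      gcongr
    linarith
  have s2 : Real.log (X * T0 X * (1 + κ * h ^ 2 / 12) / h) ≤ Real.log (Sm N y) :=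
    Real.log_le_log (by positivity) s1
  have s3 : Real.log (X * T0 X * (1 + κ * h ^ 2 / 12) / h) =
      Real.log X + Real.log (T0 X) + Real.log (1 + κ * h ^ 2 / 12) + Real.log y := by
    rw [hyh, Real.log_div (by positivity) h0.ne', Real.log_mul (by positivity) (by positivity),
      Real.log_mul (by positivity) (by positivity), one_div, Real.log_inv]
    ring
  have s4 : κ * h ^ 2 / 12 / (1 + κ * h ^ 2 / 12) ≤ Real.log (1 + κ * h ^ 2 / 12) := by
    have := Real.one_sub_inv_le_log_of_pos (show 0 < 1 + κ * h ^ 2 / 12 by positivity)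
    refine le_trans (le_of_eq ?_) this
    field_simp
    ring
  have s5 : h ^ 2 / 24 < κ * h ^ 2 / 12 / (1 + κ * h ^ 2 / 12) := by
    rw [lt_div_iff₀ (by positivity)]
    have k1 : 1 / 2 + 1 / 50 < κ := by
      rw [hκ, lt_div_iff₀ (by positivity)]
      have : X ^ 2 ≤ 9 / 25 := by nlinarith
      have h2 : (1 + X ^ 2) ^ 2 ≤ (34 / 25) ^ 2 := pow_le_pow_left₀ (by positivity) (by linarith) 2
      nlinarith
    have k2 : κ ≤ 1 := by
      rw [hκ, div_le_one (by positivity)]
      nlinarith [sq_nonneg X, sq_nonneg (X ^ 2)]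
    have k3 : h ^ 2 ≤ 9 / 25 := by nlinarith
    have k4 : κ * h ^ 2 ≤ 9 / 25 := by nlinarith [sq_nonneg h]
    have h2 : 0 < h ^ 2 := by positivity
    nlinarith
  -- the logarithmic part
  have b2 : (Real.log (1 + X ^ 2) - 2 + 2 * Real.arctan X / X) / 2 - h ^ 2 / 24 ≤ G / N := by
    rw [le_div_iff₀ hN0]
    have e : ((Real.log (1 + X ^ 2) - 2 + 2 * Real.arctan X / X) / 2 - h ^ 2 / 24) * N * h ≤
        G * h := by
      have : ((Real.log (1 + X ^ 2) - 2 + 2 * Real.arctan X / X) / 2 - h ^ 2 / 24) * N * h =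
        X * ((Real.log (1 + X ^ 2) - 2 + 2 * Real.arctan X / X) / 2) - X * h ^ 2 / 24 := by
        rw [hXd]; ring
      rw [this]; linarith
    exact le_of_mul_le_mul_right e h0
  have j := J_nonneg X0 (by linarith : X ≤ 1)
  unfold J at j
  have e5 : Lm N y / N = Real.log y + G / N := by
    rw [eL]; field_simp
  have e6 : Real.log ((N : ℝ) ^ 2 / 2) = 2 * Real.log y + Real.log X + Real.log (X / 2) := by
    have : (N : ℝ) ^ 2 / 2 = y ^ 2 * X * (X / 2) := by
      rw [hXd, hyh]; field_simp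
    rw [this, Real.log_mul (by positivity) (by positivity), Real.log_mul (by positivity)
      (by positivity), Real.log_pow]
    push_cast; ring
  rw [e5, e6]
  linarith

/-! ### small `n` -/

/-- the real and imaginary parts of the product of `y + i (m + 1/2)`, `m < k` -/
noncomputable def zz (y : ℝ) : ℕ → ℝ × ℝ
  | 0 => (1, 0)
  | k + 1 => ((zz y k).1 * y - (zz y k).2 * ((k : ℝ) + 1 / 2),
      (zz y k).1 * ((k : ℝ) + 1 / 2) + (zz y k).2 * y)

theorem zz_succ (y : ℝ) (k : ℕ) : zz y (k + 1) = ((zz y k).1 * y - (zz y k).2 * ((k : ℝ) + 1 / 2),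
      (zz y k).1 * ((k : ℝ) + 1 / 2) + (zz y k).2 * y) := rfl

theorem zz_polar {y : ℝ} (hy : 0 < y) (k : ℕ) : ∃ R : ℝ, 0 < R ∧
    (zz y k).1 = R * Real.cos (Sm k y) ∧ (zz y k).2 = R * Real.sin (Sm k y) := by
  induction k with
  | zero => exact ⟨1, one_pos, by simp [zz, Sm], by simp [zz, Sm]⟩
  | succ k ih =>
    obtain ⟨R, R0, h1, h2⟩ := ih
    have e : Sm (k + 1) y = Sm k y + Real.arctan (((k : ℝ) + 1 / 2) / y) := by
      unfold Sm; rw [Finset.sum_range_succ]
    obtain ⟨x, hx⟩ : ∃ x : ℝ, x = (k : ℝ) + 1 / 2 := ⟨_, rfl⟩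
    rw [← hx] at e
    have q : 0 < Real.sqrt (1 + (x / y) ^ 2) := Real.sqrt_pos.2 (by positivity)
    refine ⟨R * (y * Real.sqrt (1 + (x / y) ^ 2)), by positivity, ?_, ?_⟩
    · rw [zz_succ, h1, h2, e, Real.cos_add, Real.cos_arctan, Real.sin_arctan, ← hx]
      field_simp
    · rw [zz_succ, h1, h2, e, Real.sin_add, Real.cos_arctan, Real.sin_arctan, ← hx]
      field_simp
      ring

theorem pi_lt_of_im {N : ℕ} {y : ℝ} (hN : 0 < N) (hy : 0 < y) (h : (zz y N).2 < 0) :
    Real.pi < Sm N y := by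
  obtain ⟨R, R0, _, h2⟩ := zz_polar hy N
  rw [h2] at h
  have s : Real.sin (Sm N y) < 0 := by
    by_contra hq
    push Not at hq
    have := mul_nonneg R0.le hq
    linarith
  by_contra hq
  push Not at hq
  have := Real.sin_nonneg_of_nonneg_of_le_pi (Sm_pos hN hy).le hq
  linarith

theorem num2 : Real.pi < Sm 4 (33 / 20) := by
  have e0 : zz (33 / 20) 0 = (1, 0) := rfl
  have e1 : zz (33 / 20) 1 = ((33 / 20), (1 / 2)) := by
    rw [zz_succ, e0]; norm_num
  have e2 : zz (33 / 20) 2 = ((789 / 400), (33 / 10)) := by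
    rw [zz_succ, e1]; norm_num
  have e3 : zz (33 / 20) 3 = ((-39963 / 8000), (8301 / 800)) := by
    rw [zz_succ, e2]; norm_num
  have e4 : zz (33 / 20) 4 = ((-7129479 / 160000), (-363 / 1000)) := by
    rw [zz_succ, e3]; norm_num
  apply pi_lt_of_im (by norm_num) (by norm_num)
  rw [e4]; norm_num

theorem prod2 : ((8 : ℝ) / Real.pi) ^ 8 < ∏ m ∈ range 4, (((m : ℝ) + 1 / 2) ^ 2 + (33 / 20) ^ 2) := by
  have e : ∏ m ∈ range 4, (((m : ℝ) + 1 / 2) ^ 2 + (33 / 20) ^ 2) = (50832844097841 / 25600000000) := by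
    norm_num [Finset.prod_range_succ]
  rw [e, div_pow, div_lt_iff₀ (by positivity)]
  calc (8 : ℝ) ^ 8 < (50832844097841 / 25600000000) * 3.141592 ^ 8 := by norm_num
    _ ≤ (50832844097841 / 25600000000) * Real.pi ^ 8 := by
      apply mul_le_mul_of_nonneg_left _ (by norm_num)
      exact pow_le_pow_left₀ (by norm_num) Real.pi_gt_d6.le _

theorem num3 : Real.pi < Sm 6 (19 / 4) := by
  have e0 : zz (19 / 4) 0 = (1, 0) := rfl
  have e1 : zz (19 / 4) 1 = ((19 / 4), (1 / 2)) := by
    rw [zz_succ, e0]; norm_num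
  have e2 : zz (19 / 4) 2 = ((349 / 16), (19 / 2)) := by
    rw [zz_succ, e1]; norm_num
  have e3 : zz (19 / 4) 3 = ((5111 / 64), (3189 / 32)) := by
    rw [zz_succ, e2]; norm_num
  have e4 : zz (19 / 4) 4 = ((7817 / 256), (6023 / 8)) := by
    rw [zz_succ, e3]; norm_num
  have e5 : zz (19 / 4) 5 = ((-3320725 / 1024), (1901345 / 512)) := by
    rw [zz_succ, e4]; norm_num
  have e6 : zz (19 / 4) 6 = ((-146752955 / 4096), (-100605 / 512)) := by
    rw [zz_succ, e5]; norm_num
  apply pi_lt_of_im (by norm_num) (by norm_num)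
  rw [e6]; norm_num

theorem prod3 : ((18 : ℝ) / Real.pi) ^ 12 < ∏ m ∈ range 6, (((m : ℝ) + 1 / 2) ^ 2 + (19 / 4) ^ 2) := by
  have e : ∏ m ∈ range 6, (((m : ℝ) + 1 / 2) ^ 2 + (19 / 4) ^ 2) = (21537077568657625 / 16777216) := by
    norm_num [Finset.prod_range_succ]
  rw [e, div_pow, div_lt_iff₀ (by positivity)]
  calc (18 : ℝ) ^ 12 < (21537077568657625 / 16777216) * 3.141592 ^ 12 := by norm_num
    _ ≤ (21537077568657625 / 16777216) * Real.pi ^ 12 := by
      apply mul_le_mul_of_nonneg_left _ (by norm_num)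
      exact pow_le_pow_left₀ (by norm_num) Real.pi_gt_d6.le _

theorem num4 : Real.pi < Sm 8 (459 / 50) := by
  have e0 : zz (459 / 50) 0 = (1, 0) := rfl
  have e1 : zz (459 / 50) 1 = ((459 / 50), (1 / 2)) := by
    rw [zz_succ, e0]; norm_num
  have e2 : zz (459 / 50) 2 = ((104403 / 1250), (459 / 25)) := by
    rw [zz_succ, e1]; norm_num
  have e3 : zz (459 / 50) 3 = ((45052227 / 62500), (943377 / 2500)) := by
    rw [zz_succ, e2]; norm_num
  have e4 : zz (459 / 50) 4 = ((8275848909 / 1562500), (93546954 / 15625)) := by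
    rw [zz_succ, e3]; norm_num
  have e5 : zz (459 / 50) 5 = ((1693808184231 / 78125000), (9849393909 / 125000)) := by
    rw [zz_succ, e4]; norm_num
  have e6 : zz (459 / 50) 6 = ((-457703310773673 / 1953125000), (32913421283079 / 39062500)) := by
    rw [zz_succ, e5]; norm_num
  have e7 : zz (459 / 50) 7 = ((-744928915495149657 / 97656250000), (24264377697808773 / 3906250000)) := by
    rw [zz_succ, e6]; norm_num
  have e8 : zz (459 / 50) 8 = ((-284700456564615469719 / 2441406250000), (-1143261535406814 / 6103515625)) := by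
    rw [zz_succ, e7]; norm_num
  apply pi_lt_of_im (by norm_num) (by norm_num)
  rw [e8]; norm_num

theorem prod4 : ((32 : ℝ) / Real.pi) ^ 16 < ∏ m ∈ range 8, (((m : ℝ) + 1 / 2) ^ 2 + (459 / 50) ^ 2) := by
  have e : ∏ m ∈ range 8, (((m : ℝ) + 1 / 2) ^ 2 + (459 / 50) ^ 2) = (81054559095610634225429030690427901298961 / 5960464477539062500000000) := by
    norm_num [Finset.prod_range_succ]
  rw [e, div_pow, div_lt_iff₀ (by positivity)]
  calc (32 : ℝ) ^ 16 < (81054559095610634225429030690427901298961 / 5960464477539062500000000) * 3.141592 ^ 16 := by norm_num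
    _ ≤ (81054559095610634225429030690427901298961 / 5960464477539062500000000) * Real.pi ^ 16 := by
      apply mul_le_mul_of_nonneg_left _ (by norm_num)
      exact pow_le_pow_left₀ (by norm_num) Real.pi_gt_d6.le _

theorem num5 : Real.pi < Sm 10 (2979 / 200) := by
  have e0 : zz (2979 / 200) 0 = (1, 0) := rfl
  have e1 : zz (2979 / 200) 1 = ((2979 / 200), (1 / 2)) := by
    rw [zz_succ, e0]; norm_num
  have e2 : zz (2979 / 200) 2 = ((8844441 / 40000), (2979 / 100)) := by
    rw [zz_succ, e1]; norm_num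
  have e3 : zz (2979 / 200) 3 = ((25751789739 / 8000000), (79719969 / 80000)) := by
    rw [zz_succ, e2]; norm_num
  have e4 : zz (2979 / 200) 4 = ((71134183802481 / 1600000000), (26109269739 / 1000000)) := by
    rw [zz_succ, e3]; norm_num
  have e5 : zz (2979 / 200) 5 = ((174311385123430899 / 320000000000), (75387195482481 / 128000000)) := by
    rw [zz_succ, e4]; norm_num
  have e6 : zz (2979 / 200) 6 = ((311958828705877898121 / 64000000000000), (1882971654978878091 / 160000000000)) := by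
    rw [zz_succ, e5]; norm_num
  have e7 : zz (2979 / 200) 7 = ((-49819909874206348817541 / 12800000000000000), (26492955013904724007929 / 128000000000000)) := by
    rw [zz_succ, e6]; norm_num
  have e8 : zz (2979 / 200) 8 = ((-4122356763600969314316804639 / 2560000000000000000), (1221487724036079337302459 / 400000000000000)) := by
    rw [zz_succ, e7]; norm_num
  have e9 : zz (2979 / 200) 9 = ((-25570287236279830777200514939581 / 512000000000000000000), (162803898532606263789351944241 / 5120000000000000000)) := by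
    rw [zz_succ, e8]; norm_num
  have e10 : zz (2979 / 200) 10 = ((-107106626398072806005257203410801799 / 102400000000000000000000), (-8426437606827249383303419581 / 10240000000000000000)) := by
    rw [zz_succ, e9]; norm_num
  apply pi_lt_of_im (by norm_num) (by norm_num)
  rw [e10]; norm_num

theorem prod5 : ((50 : ℝ) / Real.pi) ^ 20 < ∏ m ∈ range 10, (((m : ℝ) + 1 / 2) ^ 2 + (2979 / 200) ^ 2) := by
  have e : ∏ m ∈ range 10, (((m : ℝ) + 1 / 2) ^ 2 + (2979 / 200) ^ 2) = (11471836518861420640867419790035288082790690206938582882396068161636401 / 10485760000000000000000000000000000000000000000) := by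
    norm_num [Finset.prod_range_succ]
  rw [e, div_pow, div_lt_iff₀ (by positivity)]
  calc (50 : ℝ) ^ 20 < (11471836518861420640867419790035288082790690206938582882396068161636401 / 10485760000000000000000000000000000000000000000) * 3.141592 ^ 20 := by norm_num
    _ ≤ (11471836518861420640867419790035288082790690206938582882396068161636401 / 10485760000000000000000000000000000000000000000) * Real.pi ^ 20 := by
      apply mul_le_mul_of_nonneg_left _ (by norm_num)
      exact pow_le_pow_left₀ (by norm_num) Real.pi_gt_d6.le _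

theorem Lm_eq {N : ℕ} {y : ℝ} (hy : 0 < y) :
    Lm N y = Real.log (∏ m ∈ range N, (((m : ℝ) + 1 / 2) ^ 2 + y ^ 2)) / 2 := by
  unfold Lm
  rw [Real.log_prod (fun m _ => by positivity), Finset.sum_div]

theorem small {n : ℕ} (hn : 0 < n) {y0 y : ℝ} (h0 : 0 < y0) (hy : 0 < y)
    (hp : Real.pi < Sm (2 * n) y0)
    (hq : ((2 * (n : ℝ) ^ 2) / Real.pi) ^ (4 * n) <
      ∏ m ∈ range (2 * n), (((m : ℝ) + 1 / 2) ^ 2 + y0 ^ 2))
    (hS : Sm (2 * n) y = Real.pi) :
    y0 < y ∧ Real.log (2 * (n : ℝ) ^ 2 / Real.pi) < Lm (2 * n) y / (2 * n) := by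
  have n0 : (0 : ℝ) < n := by exact_mod_cast hn
  have hlt : y0 < y := by
    by_contra hcon
    push Not at hcon
    rcases hcon.eq_or_lt with h | h
    · rw [h] at hS; linarith
    · have := Sm_anti (N := 2 * n) (by omega) hy h
      linarith
  refine ⟨hlt, ?_⟩
  have m := Lm_mono (N := 2 * n) h0 hlt.le
  refine lt_of_lt_of_le ?_ (div_le_div_of_nonneg_right m (by positivity))
  have hpi := Real.pi_pos
  rw [lt_div_iff₀ (by positivity), Lm_eq h0]
  have l := Real.log_lt_log (by positivity) hq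
  rw [Real.log_pow] at l
  push_cast at l
  linarith

theorem lower_final {n : ℕ} (hn : 2 ≤ n) {y : ℝ} (hy : 0 < y) (hS : Sm (2 * n) y = Real.pi) :
    4 / 5 * (n : ℝ) ≤ y ∧ Real.log (2 * (n : ℝ) ^ 2 / Real.pi) < Lm (2 * n) y / (2 * n) := by
  have n0 : (0 : ℝ) < n := by exact_mod_cast (by omega : 0 < n)
  have hpi := Real.pi_pos
  rcases Nat.lt_or_ge n 6 with h6 | h6
  · have hcases : n = 2 ∨ n = 3 ∨ n = 4 ∨ n = 5 := by omega
    rcases hcases with rfl | rfl | rfl | rfl
    · obtain ⟨a, b⟩ := small (n := 2) (by norm_num) (y0 := 33 / 20) (by norm_num) hy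
        (by simpa using num2) (by
          have := prod2
          norm_num at this ⊢
          exact this) hS
      exact ⟨by push_cast; linarith, b⟩
    · obtain ⟨a, b⟩ := small (n := 3) (by norm_num) (y0 := 19 / 4) (by norm_num) hy
        (by simpa using num3) (by
          have := prod3
          norm_num at this ⊢
          exact this) hS
      exact ⟨by push_cast; linarith, b⟩
    · obtain ⟨a, b⟩ := small (n := 4) (by norm_num) (y0 := 459 / 50) (by norm_num) hy
        (by simpa using num4) (by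
          have := prod4
          norm_num at this ⊢
          exact this) hS
      exact ⟨by push_cast; linarith, b⟩
    · obtain ⟨a, b⟩ := small (n := 5) (by norm_num) (y0 := 2979 / 200) (by norm_num) hy
        (by simpa using num5) (by
          have := prod5
          norm_num at this ⊢
          exact this) hS
      exact ⟨by push_cast; linarith, b⟩
  · have hy1 : 10 / 3 * (n : ℝ) ≤ y := by
      by_contra hcon
      push Not at hcon
      have h1 := Sm_anti (N := 2 * n) (by omega) hy hcon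
      rw [hS] at h1
      -- `S (10 n / 3) ≥ 12 * 0.282 > π`
      have hY : 0 < 10 / 3 * (n : ℝ) := by positivity
      have h2 : ∑ m ∈ range (2 * n), ((((m : ℝ) + 1 / 2) / (10 / 3 * n)) -
          (((m : ℝ) + 1 / 2) / (10 / 3 * n)) ^ 3 / 3) ≤ Sm (2 * n) (10 / 3 * n) := by
        unfold Sm
        exact Finset.sum_le_sum fun m _ => arctan_ge (by positivity)
      have h3 : ∑ m ∈ range (2 * n), ((((m : ℝ) + 1 / 2) / (10 / 3 * n)) -
          (((m : ℝ) + 1 / 2) / (10 / 3 * n)) ^ 3 / 3) =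
          ((2 * n : ℕ) : ℝ) ^ 2 / 2 / (10 / 3 * n) -
            (((2 * n : ℕ) : ℝ) ^ 4 / 4 - ((2 * n : ℕ) : ℝ) ^ 2 / 8) / (3 * (10 / 3 * n) ^ 3) := by
        rw [Finset.sum_sub_distrib, ← Finset.sum_div, ← sum_half, ← sum_cube, Finset.sum_div]
        congr 1
        rw [Finset.sum_div]
        exact Finset.sum_congr rfl fun m _ => by
          field_simp
      rw [h3] at h2
      have h4 : 0.564 * (n : ℝ) ≤ ((2 * n : ℕ) : ℝ) ^ 2 / 2 / (10 / 3 * n) -
            (((2 * n : ℕ) : ℝ) ^ 4 / 4 - ((2 * n : ℕ) : ℝ) ^ 2 / 8) / (3 * (10 / 3 * n) ^ 3) := by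
        push_cast
        have : (2 * (n : ℝ)) ^ 2 / 2 / (10 / 3 * n) -
            ((2 * (n : ℝ)) ^ 4 / 4 - (2 * (n : ℝ)) ^ 2 / 8) / (3 * (10 / 3 * n) ^ 3) =
            0.564 * n + (1 / 2) / (3 * (10 / 3) ^ 3 * n) := by
          field_simp
          ring
        rw [this]
        have : 0 < (1 / 2 : ℝ) / (3 * (10 / 3) ^ 3 * n) := by positivity
        linarith
      have n6 : (6 : ℝ) ≤ n := by exact_mod_cast h6
      have := Real.pi_lt_d2
      linarith
    refine ⟨by linarith, ?_⟩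
    have g := lower_gen (N := 2 * n) (by omega) hy (by
      rw [div_le_iff₀ hy]
      push_cast
      linarith)
    rw [hS] at g
    have e : Real.log (2 * (n : ℝ) ^ 2 / Real.pi) =
        Real.log (((2 * n : ℕ) : ℝ) ^ 2 / 2) - Real.log Real.pi := by
      rw [← Real.log_div (by positivity) hpi.ne']
      congr 1
      push_cast
      ring
    rw [e]
    push_cast at g ⊢
    linarith

end Q191.Cn
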