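import Pool.Agent.Q191.Cn.Upper

/-! Lower bound: real analysis. -/

set_option autoImplicit false

open Finset Filter Topology

namespace Q191.Cn

theorem dlog1 (t : ℝ) : HasDerivAt (fun t : ℝ => Real.log (1 + t ^ 2)) (2 * t / (1 + t ^ 2)) t := by
  have h0 : 0 < 1 + t ^ 2 := by positivity
  have h1 : HasDerivAt (fun t : ℝ => 1 + t ^ 2) (2 * t) t := by
    have := (hasDerivAt_pow 2 t).const_add 1
    simpa using this
  exact h1.log h0.ne'

theorem darc (t : ℝ) : HasDerivAt Real.arctan (1 / (1 + t ^ 2)) t := Real.hasDerivAt_arctan t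

theorem mono_of {f f' : ℝ → ℝ} {a b : ℝ} (hab : a ≤ b)
    (hf : ∀ t, a ≤ t → t ≤ b → HasDerivAt f (f' t) t) (h : ∀ t, a ≤ t → t ≤ b → 0 ≤ f' t) :
    f a ≤ f b := by
  rcases hab.eq_or_lt with rfl | hab
  · exact le_rfl
  obtain ⟨c, hc, he⟩ := exists_hasDerivAt_eq_slope f f' hab
    (fun t ht => (hf t ht.1 ht.2).continuousAt.continuousWithinAt)
    (fun t ht => hf t ht.1.le ht.2.le)
  have h1 := h c hc.1.le hc.2.le
  rw [he] at h1
  have h2 : 0 < b - a := by linarith
  have := (div_nonneg_iff.1 h1)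
  rcases this with ⟨u, _⟩ | ⟨_, v⟩
  · linarith
  · linarith

theorem arctan_ge {t : ℝ} (ht : 0 ≤ t) : t - t ^ 3 / 3 ≤ Real.arctan t := by
  have := mono_of (f := fun t => Real.arctan t - (t - t ^ 3 / 3))
    (f' := fun t => 1 / (1 + t ^ 2) - (1 - t ^ 2)) ht (fun t _ _ => by
      have h3 : HasDerivAt (fun t : ℝ => t ^ 3 / 3) (t ^ 2) t := by
        have := (hasDerivAt_pow 3 t).div_const 3
        refine this.congr_deriv ?_
        push_cast; ring
      exact (darc t).sub ((hasDerivAt_id t).sub h3)) (fun t _ _ => by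
      have h0 : 0 < 1 + t ^ 2 := by positivity
      rw [sub_nonneg, le_div_iff₀ h0]
      nlinarith [sq_nonneg (t ^ 2)])
  simp only [Real.arctan_zero] at this
  norm_num at this
  linarith

theorem cos_le4 {t : ℝ} (ht : 0 ≤ t) : Real.cos t ≤ 1 - t ^ 2 / 2 + t ^ 4 / 24 := by
  have := mono_of (f := fun t => 1 - t ^ 2 / 2 + t ^ 4 / 24 - Real.cos t)
    (f' := fun t => -t + t ^ 3 / 6 + Real.sin t) ht (fun t _ _ => by
      have h2 : HasDerivAt (fun t : ℝ => t ^ 2 / 2) t t := by
        have := (hasDerivAt_pow 2 t).div_const 2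
        refine this.congr_deriv ?_
        push_cast; ring
      have h4 : HasDerivAt (fun t : ℝ => t ^ 4 / 24) (t ^ 3 / 6) t := by
        have := (hasDerivAt_pow 4 t).div_const 24
        refine this.congr_deriv ?_
        push_cast; ring
      refine (((h2.const_sub 1).add h4).sub (Real.hasDerivAt_cos t)).congr_deriv ?_
      ring) (fun t ht _ => by
      have := Real.sin_ge_sub_cube ht
      linarith)
  simp only [Real.cos_zero] at this
  norm_num at this
  linarith

/-- `θ³ cos θ ≤ sin³ θ` -/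
theorem sin_cube {θ : ℝ} (h0 : 0 ≤ θ) (h1 : θ ≤ 2) : θ ^ 3 * Real.cos θ ≤ Real.sin θ ^ 3 := by
  have s := Real.sin_ge_sub_cube h0
  have c := cos_le4 h0
  have h2 : θ ^ 2 ≤ 4 := by nlinarith
  have p : 0 ≤ θ - θ ^ 3 / 6 := by
    have : θ - θ ^ 3 / 6 = θ * (1 - θ ^ 2 / 6) := by ring
    rw [this]
    exact mul_nonneg h0 (by linarith)
  calc θ ^ 3 * Real.cos θ ≤ θ ^ 3 * (1 - θ ^ 2 / 2 + θ ^ 4 / 24) :=
        mul_le_mul_of_nonneg_left c (by positivity)
    _ ≤ (θ - θ ^ 3 / 6) ^ 3 := by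
        have e : (θ - θ ^ 3 / 6) ^ 3 - θ ^ 3 * (1 - θ ^ 2 / 2 + θ ^ 4 / 24) =
          θ ^ 3 * (θ ^ 4 * (9 - θ ^ 2) / 216) := by ring
        have : 0 ≤ θ ^ 3 * (θ ^ 4 * (9 - θ ^ 2) / 216) := by
          apply mul_nonneg (by positivity)
          apply div_nonneg _ (by norm_num)
          apply mul_nonneg (by positivity)
          linarith
        linarith
    _ ≤ Real.sin θ ^ 3 := pow_le_pow_left₀ p s 3

/-- `arctan³ X ≤ X³ / (1 + X²)` -/
theorem arc_cube {X : ℝ} (hX : 0 ≤ X) : Real.arctan X ^ 3 ≤ X ^ 3 / (1 + X ^ 2) := by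
  have h0 : 0 ≤ Real.arctan X := Real.arctan_nonneg.2 hX
  have h1 := Real.arctan_lt_pi_div_two X
  have hpi := Real.pi_lt_d2
  have s := sin_cube h0 (by linarith)
  have c := Real.cos_arctan_pos X
  have t := Real.tan_arctan X
  rw [Real.tan_eq_sin_div_cos, div_eq_iff c.ne'] at t
  rw [t] at s
  have c2 := Real.cos_sq_arctan X
  have e : X ^ 3 / (1 + X ^ 2) = X ^ 3 * Real.cos (Real.arctan X) ^ 2 := by
    rw [c2]; ring
  rw [e]
  have : Real.arctan X ^ 3 * Real.cos (Real.arctan X) ≤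
      (X ^ 3 * Real.cos (Real.arctan X) ^ 2) * Real.cos (Real.arctan X) := by
    linarith
  exact le_of_mul_le_mul_right this c

theorem V_nonneg {X : ℝ} (hX : 0 < X) :
    X * Real.arctan X ^ 2 / (X + Real.arctan X) ≤ Real.log (1 + X ^ 2) / 2 := by
  have pos : ∀ t : ℝ, 0 < t → 0 < Real.arctan t := fun t ht => Real.arctan_pos.2 ht
  have key : ∀ ε : ℝ, 0 < ε → ε ≤ X → -ε ^ 2 ≤ Real.log (1 + X ^ 2) / 2 -
      X * Real.arctan X ^ 2 / (X + Real.arctan X) := by
    intro ε hε hεX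
    have m := mono_of (f := fun t => Real.log (1 + t ^ 2) / 2 -
        t * Real.arctan t ^ 2 / (t + Real.arctan t))
      (f' := fun t => (t ^ 3 / (1 + t ^ 2) - Real.arctan t ^ 3) / (t + Real.arctan t) ^ 2) hεX
      (fun t ht _ => by
        have t0 : 0 < t := hε.trans_le ht
        have a0 := pos t t0
        have d1 : HasDerivAt (fun t : ℝ => t * Real.arctan t ^ 2)
            (1 * Real.arctan t ^ 2 + t * (2 * Real.arctan t * (1 / (1 + t ^ 2)))) t := by
          have := (hasDerivAt_id t).mul ((darc t).pow 2)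
          refine this.congr_deriv ?_
          simp only [id, Pi.pow_apply]
          push_cast
          ring
        have d2 : HasDerivAt (fun t : ℝ => t + Real.arctan t) (1 + 1 / (1 + t ^ 2)) t :=
          (hasDerivAt_id t).add (darc t)
        have d3 := ((dlog1 t).div_const 2).sub (d1.div d2 (by positivity))
        refine d3.congr_deriv ?_
        have h0 : 0 < 1 + t ^ 2 := by positivity
        field_simp
        ring)
      (fun t ht _ => by
        have t0 : 0 < t := hε.trans_le ht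
        have := arc_cube t0.le
        apply div_nonneg _ (by positivity)
        linarith)
    refine le_trans ?_ m
    have a0 := pos ε hε
    have l0 : 0 ≤ Real.log (1 + ε ^ 2) := Real.log_nonneg (by nlinarith [sq_nonneg ε])
    have u : ε * Real.arctan ε ^ 2 / (ε + Real.arctan ε) ≤ ε ^ 2 := by
      rw [div_le_iff₀ (by positivity)]
      have a1 := arctan_le_self' hε.le
      have : Real.arctan ε ^ 2 ≤ ε ^ 2 := pow_le_pow_left₀ a0.le a1 2
      nlinarith
    linarith
  by_contra hcon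
  push Not at hcon
  obtain ⟨δ, hδ⟩ : ∃ δ, δ = X * Real.arctan X ^ 2 / (X + Real.arctan X) -
    Real.log (1 + X ^ 2) / 2 := ⟨_, rfl⟩
  have δ0 : 0 < δ := by rw [hδ]; linarith
  have h1 := key (min X (min 1 (δ / 2))) (by positivity) (min_le_left _ _)
  have h2 : min X (min 1 (δ / 2)) ^ 2 ≤ δ / 2 := by
    have a1 : min X (min 1 (δ / 2)) ≤ 1 := (min_le_right _ _).trans (min_le_left _ _)
    have a2 : min X (min 1 (δ / 2)) ≤ δ / 2 := (min_le_right _ _).trans (min_le_right _ _)
    have a3 : 0 < min X (min 1 (δ / 2)) := by positivity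
    nlinarith
  linarith

/-- mean of `arctan` on `[0, X]` -/
noncomputable def T0 (X : ℝ) : ℝ := Real.arctan X - Real.log (1 + X ^ 2) / (2 * X)

theorem T0_ge {X : ℝ} (hX : 0 < X) : X / 2 - X ^ 3 / 3 ≤ T0 X := by
  have h1 := arctan_ge hX.le
  have h2 := Real.log_le_sub_one_of_pos (show 0 < 1 + X ^ 2 by positivity)
  have h3 : Real.log (1 + X ^ 2) / (2 * X) ≤ X / 2 := by
    rw [div_le_iff₀ (by positivity)]
    nlinarith
  unfold T0
  linarith

/-- the mean of `log (1 + t²) / 2` plus the logarithm of the mean of `arctan t`, minus the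
logarithm of the mean of `t`, on `[0, X]` -/
noncomputable def J (X : ℝ) : ℝ :=
  (Real.log (1 + X ^ 2) - 2 + 2 * Real.arctan X / X) / 2 + Real.log (T0 X) - Real.log (X / 2)

theorem T0_pos {X : ℝ} (hX : 0 < X) (hX1 : X ≤ 1) : 0 < T0 X := by
  have := T0_ge hX
  have h : 0 < X / 2 - X ^ 3 / 3 := by
    have : X / 2 - X ^ 3 / 3 = X * (1 / 2 - X ^ 2 / 3) := by ring
    rw [this]
    apply mul_pos hX
    nlinarith
  linarith

theorem dT0 {X : ℝ} (hX : 0 < X) : HasDerivAt T0
    (Real.log (1 + X ^ 2) / (2 * X ^ 2)) X := by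
  have d := (darc X).sub ((dlog1 X).div ((hasDerivAt_id X).const_mul 2) (by
    simp only [id]; positivity))
  refine d.congr_deriv ?_
  have h0 : 0 < 1 + X ^ 2 := by positivity
  simp only [id]
  field_simp
  ring

theorem dJ {X : ℝ} (hX : 0 < X) (hX1 : X ≤ 1) : HasDerivAt J
    ((2 * X / (1 + X ^ 2) + (2 * (1 / (1 + X ^ 2)) * X - 2 * Real.arctan X) / X ^ 2) / 2 +
      Real.log (1 + X ^ 2) / (2 * X ^ 2) / T0 X - 1 / X) X := by
  have d1 := (((dlog1 X).sub_const 2).add
    (((darc X).const_mul 2).div (hasDerivAt_id X) hX.ne')).div_const 2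
  have d2 := (dT0 hX).log (T0_pos hX hX1).ne'
  have d3 : HasDerivAt (fun X : ℝ => Real.log (X / 2)) (1 / X) X := by
    have := ((hasDerivAt_id X).div_const 2).log (by simp only [id]; positivity)
    refine this.congr_deriv ?_
    simp only [id]
    field_simp
  refine ((d1.add d2).sub d3).congr_deriv ?_
  simp only [id]
  ring

theorem J_nonneg {X : ℝ} (hX : 0 < X) (hX1 : X ≤ 1) : 0 ≤ J X := by
  have key : ∀ ε : ℝ, 0 < ε → ε ≤ X → -ε ^ 2 / 3 + Real.log (1 - 2 * ε ^ 2 / 3) ≤ J X := by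
    intro ε hε hεX
    have m := mono_of (f := J) hεX (fun t ht h' => dJ (hε.trans_le ht) (h'.trans hX1))
      (fun t ht h' => by
        have t0 : 0 < t := hε.trans_le ht
        have a0 : 0 < Real.arctan t := Real.arctan_pos.2 t0
        have T := T0_pos t0 (h'.trans hX1)
        have v := V_nonneg t0
        rw [div_le_iff₀ (by positivity)] at v
        have e1 : t * T0 t = t * Real.arctan t - Real.log (1 + t ^ 2) / 2 := by
          unfold T0; field_simp
        have h0 : 0 < 1 + t ^ 2 := by positivity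
        have e2 : (2 * t / (1 + t ^ 2) + (2 * (1 / (1 + t ^ 2)) * t - 2 * Real.arctan t) / t ^ 2) / 2
            + Real.log (1 + t ^ 2) / (2 * t ^ 2) / T0 t - 1 / t =
            (t * (Real.log (1 + t ^ 2) / 2) - Real.arctan t * (t * T0 t)) / (t ^ 3 * T0 t) := by
          field_simp
          ring
        rw [e2, e1]
        apply div_nonneg _ (by positivity)
        nlinarith)
    refine le_trans ?_ m
    have ε1 : ε ≤ 1 := hεX.trans hX1
    have a1 := arctan_ge hε.le
    have l0 : 0 ≤ Real.log (1 + ε ^ 2) := Real.log_nonneg (by nlinarith [sq_nonneg ε])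
    have u1 : 1 - ε ^ 2 / 3 ≤ Real.arctan ε / ε := by
      rw [le_div_iff₀ hε]
      have : (1 - ε ^ 2 / 3) * ε = ε - ε ^ 3 / 3 := by ring
      linarith
    have u2 : Real.log (1 - 2 * ε ^ 2 / 3) ≤ Real.log (T0 ε) - Real.log (ε / 2) := by
      rw [← Real.log_div (T0_pos hε ε1).ne' (by positivity)]
      have : 0 < 1 - 2 * ε ^ 2 / 3 := by nlinarith
      apply Real.log_le_log this
      rw [le_div_iff₀ (by positivity)]
      have := T0_ge hε
      have e : (1 - 2 * ε ^ 2 / 3) * (ε / 2) = ε / 2 - ε ^ 3 / 3 := by ring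
      linarith
    have e3 : 2 * Real.arctan ε / ε = 2 * (Real.arctan ε / ε) := by ring
    unfold J
    rw [e3]
    linarith
  by_contra hcon
  push Not at hcon
  have lim : Tendsto (fun ε : ℝ => -ε ^ 2 / 3 + Real.log (1 - 2 * ε ^ 2 / 3)) (𝓝[>] 0) (𝓝 0) := by
    have c : ContinuousAt (fun ε : ℝ => -ε ^ 2 / 3 + Real.log (1 - 2 * ε ^ 2 / 3)) 0 := by
      apply ContinuousAt.add
      · fun_prop
      · apply ContinuousAt.log
        · fun_prop
        · norm_num
    have := c.tendsto.mono_left (nhdsWithin_le_nhds (s := Set.Ioi 0))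
    simpa using this
  have hm : Set.Ioc 0 X ∈ 𝓝[>] (0 : ℝ) := Ioc_mem_nhdsGT hX
  have : (0 : ℝ) ≤ J X := by
    refine le_of_tendsto lim ?_
    filter_upwards [hm] with ε hε
    exact key ε hε.1 hε.2
  linarith

/-! ### Midpoint sums -/

theorem cell {φ Φ : ℝ → ℝ} {X s δ : ℝ} (hΦ : ∀ t, HasDerivAt Φ (φ t) t)
    (hc : ConcaveOn ℝ (Set.Icc 0 X) φ) (hδ : 0 ≤ δ) (h0 : 0 ≤ s - δ) (h1 : s + δ ≤ X) :
    Φ (s + δ) - Φ (s - δ) ≤ 2 * δ * φ s := by
  have m := mono_of (f := fun r => 2 * r * φ s - (Φ (s + r) - Φ (s - r)))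
    (f' := fun r => 2 * φ s - (φ (s + r) + φ (s - r))) hδ
    (fun r _ _ => by
      have d1 : HasDerivAt (fun r => Φ (s + r)) (φ (s + r)) r := by
        have := (hΦ (s + r)).comp r ((hasDerivAt_id r).const_add s)
        exact this.congr_deriv (mul_one _)
      have d2 : HasDerivAt (fun r => Φ (s - r)) (-φ (s - r)) r := by
        have := (hΦ (s - r)).comp r ((hasDerivAt_id r).const_sub s)
        refine this.congr_deriv ?_
        ring
      have d3 : HasDerivAt (fun r : ℝ => 2 * r * φ s) (2 * φ s) r := by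
        have := ((hasDerivAt_id r).const_mul 2).mul_const (φ s)
        refine this.congr_deriv ?_
        ring
      refine (d3.sub (d1.sub d2)).congr_deriv ?_
      ring)
    (fun r hr hr' => by
      have m1 : s + r ∈ Set.Icc 0 X := ⟨by linarith, by linarith⟩
      have m2 : s - r ∈ Set.Icc 0 X := ⟨by linarith, by linarith⟩
      have h := hc.2 m1 m2 (show (0 : ℝ) ≤ 1 / 2 by norm_num) (show (0 : ℝ) ≤ 1 / 2 by norm_num)
        (by norm_num)
      simp only [smul_eq_mul] at h
      have e : 1 / 2 * (s + r) + 1 / 2 * (s - r) = s := by ring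
      rw [e] at h
      linarith)
  simp only [mul_zero, zero_mul, add_zero, sub_zero, sub_self] at m
  linarith

theorem cells {φ Φ : ℝ → ℝ} {h : ℝ} (N : ℕ) (hΦ : ∀ t, HasDerivAt Φ (φ t) t)
    (hc : ConcaveOn ℝ (Set.Icc 0 (N * h)) φ) (hh : 0 ≤ h) :
    Φ (N * h) - Φ 0 ≤ h * ∑ m ∈ range N, φ (((m : ℝ) + 1 / 2) * h) := by
  have e : Φ (N * h) - Φ 0 = ∑ m ∈ range N, (Φ (((m + 1 : ℕ) : ℝ) * h) - Φ ((m : ℝ) * h)) := by
    rw [Finset.sum_range_sub (fun m : ℕ => Φ ((m : ℝ) * h))]
    simp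
  rw [e, Finset.mul_sum]
  apply Finset.sum_le_sum
  intro m hm
  rw [mem_range] at hm
  have hmN : (m : ℝ) + 1 ≤ N := by exact_mod_cast hm
  have := cell (s := ((m : ℝ) + 1 / 2) * h) (δ := h / 2) hΦ hc (by positivity)
    (by have : ((m : ℝ) + 1 / 2) * h - h / 2 = m * h := by ring
        rw [this]; positivity)
    (by have : ((m : ℝ) + 1 / 2) * h + h / 2 = (m + 1) * h := by ring
        rw [this]; exact mul_le_mul_of_nonneg_right hmN hh)
  have e1 : ((m : ℝ) + 1 / 2) * h + h / 2 = ((m + 1 : ℕ) : ℝ) * h := by push_cast; ring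
  have e2 : ((m : ℝ) + 1 / 2) * h - h / 2 = (m : ℝ) * h := by ring
  rw [e1, e2] at this
  linarith

theorem concave_of {f f' f'' : ℝ → ℝ} {X : ℝ} (h1 : ∀ t, HasDerivAt f (f' t) t)
    (h2 : ∀ t, HasDerivAt f' (f'' t) t) (h : ∀ t, 0 ≤ t → t ≤ X → f'' t ≤ 0) :
    ConcaveOn ℝ (Set.Icc 0 X) f := by
  have e1 : deriv f = f' := funext fun t => (h1 t).deriv
  apply concaveOn_of_deriv2_nonpos (convex_Icc 0 X)
    (fun t _ => (h1 t).continuousAt.continuousWithinAt)
    (fun t _ => (h1 t).differentiableAt.differentiableWithinAt)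
    (fun t _ => by rw [e1]; exact (h2 t).differentiableAt.differentiableWithinAt)
  intro t ht
  have ht' := interior_subset ht
  simp only [Function.iterate_succ, Function.iterate_zero, Function.comp_apply, id]
  rw [e1, (h2 t).deriv]
  exact h t ht'.1 ht'.2

theorem sum_sq (N : ℕ) : ∑ m ∈ range N, ((m : ℝ) + 1 / 2) ^ 2 = (N : ℝ) ^ 3 / 3 - N / 12 := by
  induction N with
  | zero => simp
  | succ N ih => rw [Finset.sum_range_succ, ih]; push_cast; ring

theorem sum_cube (N : ℕ) :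
    ∑ m ∈ range N, ((m : ℝ) + 1 / 2) ^ 3 = (N : ℝ) ^ 4 / 4 - N ^ 2 / 8 := by
  induction N with
  | zero => simp
  | succ N ih => rw [Finset.sum_range_succ, ih]; push_cast; ring

end Q191.Cn
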