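import Pool.Agent.Q191.Cn.Final

/-! Roots of `∏ (w² - (k + 1/2)²) + (-1)ⁿ c`. -/

set_option autoImplicit false

open Finset Filter Topology

namespace Q191.Cn

/-- `∏_{k < n} (w² - (k + 1/2)²)` -/
noncomputable def P (n : ℕ) (w : ℂ) : ℂ := ∏ k ∈ range n, (w ^ 2 - (((k : ℝ) + 1 / 2 : ℝ) : ℂ) ^ 2)

/-- all roots satisfy `n ≤ |Re w|` -/
def Out (n : ℕ) (c : ℝ) : Prop := ∀ w : ℂ, P n w + (-1) ^ n * (c : ℂ) = 0 → (n : ℝ) ≤ |w.re|

/-- angle -/
noncomputable def Th (n : ℕ) (u v : ℝ) : ℝ :=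
  ∑ k ∈ range n, (Real.arctan ((u - ((k : ℝ) + 1 / 2)) / v) +
    Real.arctan ((u + ((k : ℝ) + 1 / 2)) / v))

/-- squared absolute value -/
noncomputable def G (n : ℕ) (u v : ℝ) : ℝ :=
  ∏ k ∈ range n, (((u - ((k : ℝ) + 1 / 2)) ^ 2 + v ^ 2) * ((u + ((k : ℝ) + 1 / 2)) ^ 2 + v ^ 2))

theorem polar1 {v : ℝ} (hv : 0 < v) (x : ℝ) : ∃ r : ℝ, 0 < r ∧
    x = r * Real.sin (Real.arctan (x / v)) ∧ v = r * Real.cos (Real.arctan (x / v)) ∧
    r ^ 2 = x ^ 2 + v ^ 2 := by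
  have hc := Real.cos_arctan_pos (x / v)
  have ht := Real.tan_arctan (x / v)
  rw [Real.tan_eq_sin_div_cos, div_eq_div_iff hc.ne' hv.ne'] at ht
  have hx : x = v / Real.cos (Real.arctan (x / v)) * Real.sin (Real.arctan (x / v)) := by
    field_simp; linarith
  have hv' : v = v / Real.cos (Real.arctan (x / v)) * Real.cos (Real.arctan (x / v)) := by
    field_simp
  refine ⟨v / Real.cos (Real.arctan (x / v)), by positivity, hx, hv', ?_⟩
  have e := Real.sin_sq_add_cos_sq (Real.arctan (x / v))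
  obtain ⟨r, hr⟩ : ∃ r, r = v / Real.cos (Real.arctan (x / v)) := ⟨_, rfl⟩
  rw [← hr] at hx hv' ⊢
  obtain ⟨s, hs⟩ : ∃ s, s = Real.sin (Real.arctan (x / v)) := ⟨_, rfl⟩
  obtain ⟨t, ht⟩ : ∃ t, t = Real.cos (Real.arctan (x / v)) := ⟨_, rfl⟩
  rw [← hs, ← ht] at e
  rw [← hs] at hx
  rw [← ht] at hv'
  rw [hx, hv']
  linear_combination (-r ^ 2) * e

theorem polar2 {v : ℝ} (hv : 0 < v) (u a : ℝ) : ∃ r : ℝ, 0 < r ∧
    ((u : ℂ) + v * Complex.I) ^ 2 - (a : ℂ) ^ 2 =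
      -(r * (Real.cos (Real.arctan ((u - a) / v) + Real.arctan ((u + a) / v)) -
        Real.sin (Real.arctan ((u - a) / v) + Real.arctan ((u + a) / v)) * Complex.I)) ∧
    r ^ 2 = ((u - a) ^ 2 + v ^ 2) * ((u + a) ^ 2 + v ^ 2) := by
  obtain ⟨r, r0, h1, h2, h3⟩ := polar1 hv (u - a)
  obtain ⟨q, q0, h4, h5, h6⟩ := polar1 hv (u + a)
  refine ⟨r * q, by positivity, ?_, by rw [← h3, ← h6]; ring⟩
  obtain ⟨A, hA⟩ : ∃ A, A = Real.arctan ((u - a) / v) := ⟨_, rfl⟩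
  obtain ⟨B, hB⟩ : ∃ B, B = Real.arctan ((u + a) / v) := ⟨_, rfl⟩
  rw [← hA] at h1 h2 ⊢
  rw [← hB] at h4 h5 ⊢
  have h1' : (u : ℂ) - a = r * Real.sin A := by exact_mod_cast h1
  have h2' : (v : ℂ) = r * Real.cos A := by exact_mod_cast h2
  have h4' : (u : ℂ) + a = q * Real.sin B := by exact_mod_cast h4
  have h5' : (v : ℂ) = q * Real.cos B := by exact_mod_cast h5
  have e : ((u : ℂ) + v * Complex.I) ^ 2 - (a : ℂ) ^ 2 =
      (((u : ℂ) - a) + v * Complex.I) * (((u : ℂ) + a) + v * Complex.I) := by ring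
  rw [e]
  have e1 : ((u : ℂ) - a) + v * Complex.I = r * (Real.sin A + Real.cos A * Complex.I) := by
    rw [h1']; nth_rewrite 1 [h2']; ring
  have e2 : ((u : ℂ) + a) + v * Complex.I = q * (Real.sin B + Real.cos B * Complex.I) := by
    rw [h4']; nth_rewrite 1 [h5']; ring
  rw [e1, e2, Real.cos_add, Real.sin_add]
  push_cast
  linear_combination (r * q * Complex.cos A * Complex.cos B : ℂ) * Complex.I_sq

theorem polar {v : ℝ} (hv : 0 < v) (n : ℕ) (u : ℝ) : ∃ R : ℝ, 0 < R ∧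
    P n ((u : ℂ) + v * Complex.I) =
      (-1) ^ n * (R * (Real.cos (Th n u v) - Real.sin (Th n u v) * Complex.I)) ∧
    R ^ 2 = G n u v := by
  induction n with
  | zero => exact ⟨1, one_pos, by simp [P, Th], by simp [G]⟩
  | succ n ih =>
    obtain ⟨R, R0, h1, h2⟩ := ih
    obtain ⟨r, r0, h3, h4⟩ := polar2 hv u ((n : ℝ) + 1 / 2)
    refine ⟨R * r, by positivity, ?_, ?_⟩
    · have e : P (n + 1) ((u : ℂ) + v * Complex.I) = P n ((u : ℂ) + v * Complex.I) *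
          (((u : ℂ) + v * Complex.I) ^ 2 - (((n : ℝ) + 1 / 2 : ℝ) : ℂ) ^ 2) := by
        unfold P; rw [Finset.prod_range_succ]
      have e2 : Th (n + 1) u v = Th n u v + (Real.arctan ((u - ((n : ℝ) + 1 / 2)) / v) +
          Real.arctan ((u + ((n : ℝ) + 1 / 2)) / v)) := by
        unfold Th; rw [Finset.sum_range_succ]
      rw [e, h1, h3, e2]
      obtain ⟨A, hA⟩ : ∃ A, A = Th n u v := ⟨_, rfl⟩
      obtain ⟨B, hB⟩ : ∃ B, B = Real.arctan ((u - ((n : ℝ) + 1 / 2)) / v) +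
          Real.arctan ((u + ((n : ℝ) + 1 / 2)) / v) := ⟨_, rfl⟩
      rw [← hA, ← hB, Real.cos_add, Real.sin_add, pow_succ]
      push_cast
      linear_combination (-(-1) ^ n * R * r * Complex.sin A * Complex.sin B : ℂ) * Complex.I_sq
    · have e : G (n + 1) u v = G n u v * (((u - ((n : ℝ) + 1 / 2)) ^ 2 + v ^ 2) *
          ((u + ((n : ℝ) + 1 / 2)) ^ 2 + v ^ 2)) := by
        unfold G; rw [Finset.prod_range_succ]
      rw [e, ← h2, ← h4]; ring

theorem norm_P (n : ℕ) (u v : ℝ) : ‖P n ((u : ℂ) + v * Complex.I)‖ ^ 2 = G n u v := by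
  unfold P G
  rw [norm_prod, ← Finset.prod_pow]
  apply Finset.prod_congr rfl
  intro k _
  obtain ⟨a, ha⟩ : ∃ a : ℝ, a = (k : ℝ) + 1 / 2 := ⟨_, rfl⟩
  rw [← ha]
  have e : ((u : ℂ) + v * Complex.I) ^ 2 - (a : ℂ) ^ 2 =
      (((u - a : ℝ) : ℂ) + (v : ℝ) * Complex.I) * (((u + a : ℝ) : ℂ) + (v : ℝ) * Complex.I) := by
    push_cast; ring
  rw [e, norm_mul, mul_pow, Complex.sq_norm, Complex.sq_norm, Complex.normSq_add_mul_I,
    Complex.normSq_add_mul_I]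

/-- pairing of the points `m + 1/2`, `m < 2 n`, as `n ± (k + 1/2)` -/
theorem pair_prod (n : ℕ) (f : ℝ → ℝ) : ∏ m ∈ range (2 * n), f ((m : ℝ) + 1 / 2) =
    ∏ k ∈ range n, (f ((n : ℝ) - ((k : ℝ) + 1 / 2)) * f ((n : ℝ) + ((k : ℝ) + 1 / 2))) := by
  rw [Finset.prod_mul_distrib, two_mul, Finset.prod_range_add,
    ← Finset.prod_range_reflect (fun m : ℕ => f ((m : ℝ) + 1 / 2)) n]
  congr 1
  · apply Finset.prod_congr rfl
    intro k hk
    rw [mem_range] at hk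
    congr 1
    rw [Nat.sub_sub, Nat.cast_sub (by omega)]
    push_cast; ring
  · apply Finset.prod_congr rfl
    intro k _
    congr 1
    push_cast; ring

theorem pair_sum (n : ℕ) (f : ℝ → ℝ) : ∑ m ∈ range (2 * n), f ((m : ℝ) + 1 / 2) =
    ∑ k ∈ range n, (f ((n : ℝ) - ((k : ℝ) + 1 / 2)) + f ((n : ℝ) + ((k : ℝ) + 1 / 2))) := by
  rw [Finset.sum_add_distrib, two_mul, Finset.sum_range_add,
    ← Finset.sum_range_reflect (fun m : ℕ => f ((m : ℝ) + 1 / 2)) n]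
  congr 1
  · apply Finset.sum_congr rfl
    intro k hk
    rw [mem_range] at hk
    congr 1
    rw [Nat.sub_sub, Nat.cast_sub (by omega)]
    push_cast; ring
  · apply Finset.sum_congr rfl
    intro k _
    congr 1
    push_cast; ring

theorem Th_n (n : ℕ) (v : ℝ) : Th n n v = Sm (2 * n) v := by
  unfold Th Sm
  rw [pair_sum n (fun x => Real.arctan (x / v))]

theorem G_n (n : ℕ) {v : ℝ} (hv : 0 < v) : G n n v = Real.exp (Lm (2 * n) v) ^ 2 := by
  rw [Lm_eq hv, ← Real.exp_nat_mul]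
  push_cast
  rw [mul_div_cancel₀ _ (two_ne_zero), Real.exp_log (Finset.prod_pos fun m _ => by positivity),
    pair_prod n (fun x => x ^ 2 + v ^ 2)]
  rfl

theorem Th_mono {n : ℕ} (hn : 0 < n) {v : ℝ} (hv : 0 < v) {u u' : ℝ} (h : u < u') :
    Th n u v < Th n u' v := by
  unfold Th
  apply Finset.sum_lt_sum_of_nonempty (nonempty_range_iff.2 hn.ne')
  intro k _
  apply add_lt_add
  · apply Real.arctan_strictMono
    apply div_lt_div_of_pos_right _ hv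
    linarith
  · apply Real.arctan_strictMono
    apply div_lt_div_of_pos_right _ hv
    linarith

theorem pair_nonneg {u v a : ℝ} (hu : 0 ≤ u) (hv : 0 < v) :
    0 ≤ Real.arctan ((u - a) / v) + Real.arctan ((u + a) / v) := by
  have : Real.arctan (-((u + a) / v)) ≤ Real.arctan ((u - a) / v) := by
    apply Real.arctan_strictMono.monotone
    rw [← neg_div]
    apply div_le_div_of_nonneg_right _ hv.le
    linarith
  rw [Real.arctan_neg] at this
  linarith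

theorem Th_nonneg (n : ℕ) {u v : ℝ} (hu : 0 ≤ u) (hv : 0 < v) : 0 ≤ Th n u v :=
  Finset.sum_nonneg fun _ _ => pair_nonneg hu hv

theorem G_lt {n : ℕ} (hn : 0 < n) {u v y : ℝ} (hu : 0 ≤ u) (hun : u < n) (hv : 0 ≤ v)
    (hvy : v < y) (hy : 4 / 5 * (n : ℝ) ≤ y) : G n u v < G n n y := by
  have n0 : (0 : ℝ) < n := by exact_mod_cast hn
  have hlt : ∀ k ∈ range n, ((u - ((k : ℝ) + 1 / 2)) ^ 2 + v ^ 2) *
      ((u + ((k : ℝ) + 1 / 2)) ^ 2 + v ^ 2) < (((n : ℝ) - ((k : ℝ) + 1 / 2)) ^ 2 + y ^ 2) *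
      (((n : ℝ) + ((k : ℝ) + 1 / 2)) ^ 2 + y ^ 2) := by
    intro k hk
    rw [mem_range] at hk
    have hk' : (k : ℝ) + 1 ≤ n := by exact_mod_cast hk
    obtain ⟨a, ha⟩ : ∃ a : ℝ, a = (k : ℝ) + 1 / 2 := ⟨_, rfl⟩
    rw [← ha]
    have a0 : 0 < a := by rw [ha]; positivity
    have an : a < n := by rw [ha]; linarith
    have e1 : ((u - a) ^ 2 + v ^ 2) * ((u + a) ^ 2 + v ^ 2) =
      (u ^ 2 + v ^ 2 + a ^ 2) ^ 2 - 4 * a ^ 2 * u ^ 2 := by ring
    have e2 : (((n : ℝ) - a) ^ 2 + y ^ 2) * (((n : ℝ) + a) ^ 2 + y ^ 2) =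
      ((n : ℝ) ^ 2 + y ^ 2 + a ^ 2) ^ 2 - 4 * a ^ 2 * n ^ 2 := by ring
    rw [e1, e2]
    have v2 : v ^ 2 < y ^ 2 := pow_lt_pow_left₀ hvy hv (by norm_num)
    have u2 : u ^ 2 < (n : ℝ) ^ 2 := pow_lt_pow_left₀ hun hu (by norm_num)
    have a2 : a ^ 2 < (n : ℝ) ^ 2 := pow_lt_pow_left₀ an a0.le (by norm_num)
    have y2 : (4 / 5 * (n : ℝ)) ^ 2 ≤ y ^ 2 := pow_le_pow_left₀ (by positivity) hy 2
    have s1 : (u ^ 2 + v ^ 2 + a ^ 2) ^ 2 < (u ^ 2 + y ^ 2 + a ^ 2) ^ 2 :=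
      pow_lt_pow_left₀ (by linarith) (by positivity) (by norm_num)
    have s2 : (u ^ 2 + y ^ 2 + a ^ 2) ^ 2 - 4 * a ^ 2 * u ^ 2 ≤
        ((n : ℝ) ^ 2 + y ^ 2 + a ^ 2) ^ 2 - 4 * a ^ 2 * n ^ 2 := by
      have e3 : ((n : ℝ) ^ 2 + y ^ 2 + a ^ 2) ^ 2 - 4 * a ^ 2 * n ^ 2 -
          ((u ^ 2 + y ^ 2 + a ^ 2) ^ 2 - 4 * a ^ 2 * u ^ 2) =
          ((n : ℝ) ^ 2 - u ^ 2) * ((n : ℝ) ^ 2 + u ^ 2 + 2 * y ^ 2 - 2 * a ^ 2) := by ring
      have p1 : 0 ≤ (n : ℝ) ^ 2 - u ^ 2 := by linarith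
      have p2 : 0 ≤ (n : ℝ) ^ 2 + u ^ 2 + 2 * y ^ 2 - 2 * a ^ 2 := by nlinarith [sq_nonneg u]
      have := mul_nonneg p1 p2
      linarith
    linarith
  have pos : 0 < G n n y := by
    apply Finset.prod_pos
    intro k _
    have : 0 < y := lt_of_le_of_lt hv hvy
    positivity
  by_cases hz : ∃ k ∈ range n, ((u - ((k : ℝ) + 1 / 2)) ^ 2 + v ^ 2) *
      ((u + ((k : ℝ) + 1 / 2)) ^ 2 + v ^ 2) = 0
  · obtain ⟨k, hk, h0⟩ := hz
    have : G n u v = 0 := Finset.prod_eq_zero hk h0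
    rw [this]; exact pos
  · push Not at hz
    apply Finset.prod_lt_prod_of_nonempty _ hlt (nonempty_range_iff.2 hn.ne')
    intro k hk
    exact lt_of_le_of_ne (by positivity) (Ne.symm (hz k hk))

theorem P_neg (n : ℕ) (w : ℂ) : P n (-w) = P n w := by
  unfold P; simp

theorem P_conj (n : ℕ) (w : ℂ) : P n ((starRingEnd ℂ) w) = (starRingEnd ℂ) (P n w) := by
  unfold P
  rw [map_prod]
  apply Finset.prod_congr rfl
  intro k _
  rw [map_sub, map_pow, map_pow, Complex.conj_ofReal]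

theorem root_abs {n : ℕ} {c : ℝ} {w : ℂ} (h : P n w + (-1) ^ n * (c : ℂ) = 0) :
    P n (((|w.re| : ℝ) : ℂ) + ((|w.im| : ℝ) : ℂ) * Complex.I) + (-1) ^ n * (c : ℂ) = 0 := by
  have hneg : P n (-w) + (-1) ^ n * (c : ℂ) = 0 := by rw [P_neg]; exact h
  have conj : ∀ z : ℂ, P n z + (-1) ^ n * (c : ℂ) = 0 →
      P n ((starRingEnd ℂ) z) + (-1) ^ n * (c : ℂ) = 0 := by
    intro z hz
    have := congrArg (starRingEnd ℂ) hz
    rw [map_add, map_mul, map_pow, map_neg, map_one, map_zero, Complex.conj_ofReal,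
      ← P_conj] at this
    exact this
  have key : (((|w.re| : ℝ) : ℂ) + ((|w.im| : ℝ) : ℂ) * Complex.I) = w ∨
      (((|w.re| : ℝ) : ℂ) + ((|w.im| : ℝ) : ℂ) * Complex.I) = -w ∨
      (((|w.re| : ℝ) : ℂ) + ((|w.im| : ℝ) : ℂ) * Complex.I) = (starRingEnd ℂ) w ∨
      (((|w.re| : ℝ) : ℂ) + ((|w.im| : ℝ) : ℂ) * Complex.I) = (starRingEnd ℂ) (-w) := by
    rcases abs_choice w.re with h1 | h1 <;> rcases abs_choice w.im with h2 | h2
    · left; rw [h1, h2]; apply Complex.ext <;> simp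
    · right; right; left; rw [h1, h2]; apply Complex.ext <;> simp
    · right; right; right; rw [h1, h2]; apply Complex.ext <;> simp
    · right; left; rw [h1, h2]; apply Complex.ext <;> simp
  rcases key with e | e | e | e
  · rw [e]; exact h
  · rw [e]; exact hneg
  · rw [e]; exact conj _ h
  · rw [e]; exact conj _ hneg

/-- **Direction A.** -/
theorem out_of_ge {n : ℕ} (hn : 0 < n) {y c : ℝ} (hy0 : 0 < y) (hS : Sm (2 * n) y = Real.pi)
    (hy : 4 / 5 * (n : ℝ) ≤ y) (hc : Real.exp (Lm (2 * n) y) ≤ c) : Out n c := by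
  intro w hw
  by_contra hcon
  push Not at hcon
  have hr := root_abs hw
  obtain ⟨u, hu⟩ : ∃ u, u = |w.re| := ⟨_, rfl⟩
  obtain ⟨v, hv⟩ : ∃ v, v = |w.im| := ⟨_, rfl⟩
  rw [← hu, ← hv] at hr
  rw [← hu] at hcon
  have u0 : 0 ≤ u := by rw [hu]; exact abs_nonneg _
  have v0 : 0 ≤ v := by rw [hv]; exact abs_nonneg _
  have c0 : 0 < c := (Real.exp_pos _).trans_le hc
  rcases lt_or_ge v y with hvy | hvy
  · have h1 := norm_P n u v
    have h2 : P n ((u : ℂ) + v * Complex.I) = -((-1) ^ n * (c : ℂ)) := eq_neg_of_add_eq_zero_left hr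
    have h3 : ‖P n ((u : ℂ) + v * Complex.I)‖ = c := by
      rw [h2, norm_neg, norm_mul, norm_pow, norm_neg, norm_one, one_pow, one_mul,
        Complex.norm_real, Real.norm_eq_abs, abs_of_pos c0]
    rw [h3] at h1
    have h4 := G_lt hn u0 hcon v0 hvy hy
    rw [G_n n hy0, ← h1] at h4
    have h5 := pow_le_pow_left₀ (Real.exp_pos (Lm (2 * n) y)).le hc 2
    linarith
  · have v1 : 0 < v := hy0.trans_le hvy
    obtain ⟨R, R0, h1, _⟩ := polar v1 n u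
    rw [h1, ← mul_add] at hr
    have h2 : (R : ℂ) * (Real.cos (Th n u v) - Real.sin (Th n u v) * Complex.I) + c = 0 :=
      (mul_eq_zero.1 hr).resolve_left (pow_ne_zero _ (by norm_num))
    have hre := congrArg Complex.re h2
    have him := congrArg Complex.im h2
    simp only [Complex.add_re, Complex.mul_re, Complex.sub_re, Complex.ofReal_re,
      Complex.ofReal_im, Complex.I_re, Complex.I_im, Complex.add_im, Complex.mul_im,
      Complex.sub_im, Complex.zero_re, Complex.zero_im] at hre him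
    have s0 : Real.sin (Th n u v) = 0 := by
      have : R * Real.sin (Th n u v) = 0 := by linarith
      exact (mul_eq_zero.1 this).resolve_left R0.ne'
    have t0 := Th_nonneg n u0 v1
    have t1 : Th n u v < Real.pi := by
      have a1 := Th_mono hn v1 hcon
      rw [Th_n] at a1
      rcases hvy.eq_or_lt with h | h
      · rw [← h, hS] at a1; rw [← h]; exact a1
      · have := Sm_anti (N := 2 * n) (by omega) hy0 h
        linarith
    have t2 : Th n u v = 0 := by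
      by_contra hne
      have : 0 < Th n u v := lt_of_le_of_ne t0 (Ne.symm hne)
      have := Real.sin_pos_of_pos_of_lt_pi this t1
      linarith
    rw [t2, Real.cos_zero, Real.sin_zero] at hre
    linarith

end Q191.Cn
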