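import Pool.Agent.Q191.Cn.Roots

/-! Roots in the strip `|Re w| < n` for small `c`. -/

set_option autoImplicit false

open Finset Filter Topology

namespace Q191.Cn

/-- a complex number with real square `s < m²` has real part smaller than `m` -/
theorem re_of_sq {w : ℂ} {s m : ℝ} (hm : 0 < m) (h : w ^ 2 = (s : ℂ)) (hs : s < m ^ 2) :
    |w.re| < m := by
  have hre := congrArg Complex.re h
  have him := congrArg Complex.im h
  rw [sq, Complex.mul_re, Complex.ofReal_re] at hre
  rw [sq, Complex.mul_im, Complex.ofReal_im] at him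
  have h2 : w.re * w.im = 0 := by linarith
  apply abs_lt_of_sq_lt_sq _ hm.le
  rcases mul_eq_zero.1 h2 with h | h
  · rw [h]; nlinarith
  · rw [h] at hre
    nlinarith

theorem P_real (n : ℕ) {w : ℂ} {s : ℝ} (h : w ^ 2 = (s : ℂ)) :
    P n w = ((∏ k ∈ range n, (s - ((k : ℝ) + 1 / 2) ^ 2) : ℝ) : ℂ) := by
  unfold P
  rw [h]
  push_cast
  rfl

theorem exists_sqrt (s : ℂ) : ∃ w : ℂ, w ^ 2 = s :=
  IsAlgClosed.exists_pow_nat_eq s (by norm_num)

/-- **Direction C.** -/
theorem strip_of_nonpos {n : ℕ} (hn : 0 < n) {c : ℝ} (hc : c ≤ 0) : ¬ Out n c := by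
  intro hout
  -- `q s = ∏ (a_k² - s)`
  obtain ⟨M, hM⟩ : ∃ M : ℝ, M = 1 + |c| := ⟨_, rfl⟩
  have M1 : 1 ≤ M := by rw [hM]; linarith [abs_nonneg c]
  have cont : ContinuousOn (fun s : ℝ => ∏ k ∈ range n, (((k : ℝ) + 1 / 2) ^ 2 - s))
      (Set.Icc (-M) (1 / 4)) := by
    apply Continuous.continuousOn
    fun_prop
  have ivt := intermediate_value_Icc' (show -M ≤ (1 / 4 : ℝ) by linarith) cont
  have h1 : ∏ k ∈ range n, (((k : ℝ) + 1 / 2) ^ 2 - 1 / 4) = 0 := by
    apply Finset.prod_eq_zero (mem_range.2 hn)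
    norm_num
  have h2 : |c| ≤ ∏ k ∈ range n, (((k : ℝ) + 1 / 2) ^ 2 - -M) := by
    have h3 : ∏ k ∈ range n, (if k = 0 then |c| else 1) ≤
        ∏ k ∈ range n, (((k : ℝ) + 1 / 2) ^ 2 - -M) := by
      apply Finset.prod_le_prod
      · intro k _
        split_ifs
        · exact abs_nonneg c
        · norm_num
      · intro k _
        have : 0 ≤ ((k : ℝ) + 1 / 2) ^ 2 := sq_nonneg _
        split_ifs
        · linarith
        · linarith
    have h4 : ∏ k ∈ range n, (if k = 0 then |c| else 1) = |c| := by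
      rw [Finset.prod_ite_eq' (range n) 0 (fun _ => |c|), if_pos (mem_range.2 hn)]
    rw [h4] at h3
    exact h3
  obtain ⟨s, hs, hs2⟩ := ivt ⟨by simp only [h1]; exact abs_nonneg c, h2⟩
  simp only at hs2
  obtain ⟨w, hw⟩ := exists_sqrt (s : ℂ)
  have hroot : P n w + (-1) ^ n * (c : ℂ) = 0 := by
    rw [P_real n hw]
    have e : ∏ k ∈ range n, (s - ((k : ℝ) + 1 / 2) ^ 2) =
        (-1) ^ n * ∏ k ∈ range n, (((k : ℝ) + 1 / 2) ^ 2 - s) := by
      rw [← Finset.card_range n, ← Finset.prod_const, Finset.card_range,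
        ← Finset.prod_mul_distrib]
      exact Finset.prod_congr rfl fun k _ => by ring
    rw [e, hs2, abs_of_nonpos hc]
    push_cast
    ring
  have h5 := hout w hroot
  have n1 : (1 : ℝ) ≤ n := by exact_mod_cast hn
  have h6 := re_of_sq (m := 1) one_pos hw (by linarith [hs.2])
  linarith

theorem Out_one (c : ℝ) : Out 1 c ↔ 3 / 4 ≤ c := by
  have hP : ∀ w : ℂ, P 1 w + (-1) ^ 1 * (c : ℂ) = 0 ↔ w ^ 2 = ((1 / 4 + c : ℝ) : ℂ) := by
    intro w
    unfold P
    simp only [Finset.prod_range_one]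
    push_cast
    constructor
    · intro h; linear_combination h
    · intro h; linear_combination h
  constructor
  · intro h
    by_contra hcon
    push Not at hcon
    obtain ⟨w, hw⟩ := exists_sqrt ((1 / 4 + c : ℝ) : ℂ)
    have h1 := h w ((hP w).2 hw)
    have h2 := re_of_sq (m := 1) one_pos hw (by linarith)
    norm_num at h1
    linarith
  · intro hc w hw
    rw [hP] at hw
    have hre := congrArg Complex.re hw
    have him := congrArg Complex.im hw
    rw [sq, Complex.mul_re, Complex.ofReal_re] at hre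
    rw [sq, Complex.mul_im, Complex.ofReal_im] at him
    have h2 : w.re * w.im = 0 := by linarith
    have h3 : (1 : ℝ) ^ 2 ≤ |w.re| ^ 2 := by
      rw [sq_abs]
      rcases mul_eq_zero.1 h2 with h | h
      · rw [h] at hre; nlinarith [sq_nonneg w.im]
      · rw [h] at hre; nlinarith
    have := le_of_sq_le_sq h3 (abs_nonneg _)
    simpa using this

theorem Th_cont (n : ℕ) (u : ℝ) {v : ℝ} (hv : 0 < v) : ContinuousAt (fun v => Th n u v) v := by
  unfold Th
  apply tendsto_finsetSum
  intro k _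
  apply Tendsto.add
  · exact (Real.continuous_arctan.continuousAt).comp
      (continuousAt_const.div continuousAt_id hv.ne')
  · exact (Real.continuous_arctan.continuousAt).comp
      (continuousAt_const.div continuousAt_id hv.ne')

theorem Th_cont' (n : ℕ) (v : ℝ) : Continuous (fun u => Th n u v) := by
  unfold Th
  apply continuous_finsetSum
  intro k _
  apply Continuous.add
  · exact Real.continuous_arctan.comp (by fun_prop)
  · exact Real.continuous_arctan.comp (by fun_prop)

theorem G_cont (n : ℕ) : Continuous (fun p : ℝ × ℝ => G n p.1 p.2) := by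
  unfold G
  fun_prop

theorem Th_zero (n : ℕ) (v : ℝ) : Th n 0 v = 0 := by
  unfold Th
  apply Finset.sum_eq_zero
  intro k _
  rw [zero_sub, neg_div, Real.arctan_neg, zero_add, neg_add_cancel]

/-- **Direction B.** -/
theorem strip_of_lt {n : ℕ} (hn : 2 ≤ n) {y c : ℝ} (hy0 : 0 < y) (hS : Sm (2 * n) y = Real.pi)
    (hc0 : 0 < c) (hc : c < Real.exp (Lm (2 * n) y)) : ¬ Out n c := by
  intro hout
  have hn0 : 0 < n := by omega
  have n2 : (2 : ℝ) ≤ n := by exact_mod_cast hn
  have hpi := Real.pi_pos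
  -- the curve
  have exU : ∀ v : ℝ, ∃ U : ℝ, 0 < v → v ≤ y → 0 ≤ U ∧ U ≤ n ∧ Th n U v = Real.pi := by
    intro v
    by_cases hv : 0 < v ∧ v ≤ y
    · have h1 : Real.pi ≤ Th n n v := by
        rw [Th_n, ← hS]
        rcases hv.2.eq_or_lt with h | h
        · rw [h]
        · exact (Sm_anti (by omega) hv.1 h).le
      have ivt := intermediate_value_Icc (show (0 : ℝ) ≤ n by positivity)
        (Th_cont' n v).continuousOn
      obtain ⟨U, hU, hU2⟩ := ivt ⟨by simp only [Th_zero]; exact hpi.le, h1⟩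
      exact ⟨U, fun _ _ => ⟨hU.1, hU.2, hU2⟩⟩
    · exact ⟨0, fun h1 h2 => absurd ⟨h1, h2⟩ hv⟩
  choose U hU using exU
  have Uy : U y = n := by
    obtain ⟨_, h2, h3⟩ := hU y hy0 le_rfl
    rcases h2.eq_or_lt with h | h
    · exact h
    · have := Th_mono hn0 hy0 h
      rw [Th_n, hS, h3] at this
      exact absurd this (lt_irrefl _)
  have Ult : ∀ v, 0 < v → v < y → U v < n := by
    intro v hv hvy
    obtain ⟨_, h2, h3⟩ := hU v hv hvy.le
    rcases h2.eq_or_lt with h | h
    · rw [h, Th_n] at h3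
      have := Sm_anti (N := 2 * n) (by omega) hv hvy
      linarith
    · exact h
  have Ucont : ContinuousOn U (Set.Ioc 0 y) := by
    intro v0 hv0
    obtain ⟨_, _, h3⟩ := hU v0 hv0.1 hv0.2
    have mem : ∀ᶠ v in 𝓝[Set.Ioc 0 y] v0, v ∈ Set.Ioc 0 y := self_mem_nhdsWithin
    apply tendsto_order.2
    constructor
    · intro a ha
      have h4 : Th n a v0 < Real.pi := by rw [← h3]; exact Th_mono hn0 hv0.1 ha
      have h5 := ((Th_cont n a hv0.1).tendsto.eventually (gt_mem_nhds h4)).filter_mono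
        (nhdsWithin_le_nhds (s := Set.Ioc 0 y))
      filter_upwards [h5, mem] with v hv hm
      obtain ⟨_, _, h6⟩ := hU v hm.1 hm.2
      by_contra hcon
      push Not at hcon
      rcases hcon.eq_or_lt with h | h
      · rw [← h, h6] at hv; exact lt_irrefl _ hv
      · have := Th_mono hn0 hm.1 h
        linarith
    · intro b hb
      have h4 : Real.pi < Th n b v0 := by rw [← h3]; exact Th_mono hn0 hv0.1 hb
      have h5 := ((Th_cont n b hv0.1).tendsto.eventually (lt_mem_nhds h4)).filter_mono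
        (nhdsWithin_le_nhds (s := Set.Ioc 0 y))
      filter_upwards [h5, mem] with v hv hm
      obtain ⟨_, _, h6⟩ := hU v hm.1 hm.2
      by_contra hcon
      push Not at hcon
      rcases hcon.eq_or_lt with h | h
      · rw [h, h6] at hv; exact lt_irrefl _ hv
      · have := Th_mono hn0 hm.1 h
        linarith
  have c2 : c ^ 2 < G n n y := by
    rw [G_n n hy0]
    exact pow_lt_pow_left₀ hc hc0.le (by norm_num)
  by_cases hcase : ∃ v1, 0 < v1 ∧ v1 < y ∧ G n (U v1) v1 ≤ c ^ 2
  · -- intermediate value theorem on the curve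
    obtain ⟨v1, h1, h2, h3⟩ := hcase
    have gc : ContinuousOn (fun v => G n (U v) v) (Set.Icc v1 y) := by
      have hsub : Set.Icc v1 y ⊆ Set.Ioc 0 y := fun v hv => ⟨h1.trans_le hv.1, hv.2⟩
      have hU1 : ContinuousOn U (Set.Icc v1 y) := Ucont.mono hsub
      have hU2 : ContinuousOn (fun v : ℝ => v) (Set.Icc v1 y) := continuousOn_id
      unfold G
      fun_prop
    have ivt := intermediate_value_Icc h2.le gc
    obtain ⟨v, hv, hv2⟩ := ivt ⟨h3, by simp only [Uy]; exact c2.le⟩
    simp only at hv2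
    have v0 : 0 < v := h1.trans_le hv.1
    have vy : v < y := by
      rcases hv.2.eq_or_lt with h | h
      · rw [h, Uy] at hv2; linarith
      · exact h
    obtain ⟨u0, _, hTh⟩ := hU v v0 hv.2
    obtain ⟨R, R0, e1, e2⟩ := polar v0 n (U v)
    have Rc : R = c := by
      rw [hv2] at e2
      exact (pow_left_inj₀ R0.le hc0.le (by norm_num)).1 e2
    have hroot : P n ((U v : ℂ) + v * Complex.I) + (-1) ^ n * (c : ℂ) = 0 := by
      rw [e1, hTh, Rc, Real.cos_pi, Real.sin_pi]
      push_cast
      ring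
    have h5 := hout _ hroot
    have h6 : ((U v : ℂ) + v * Complex.I).re = U v := by simp
    rw [h6, abs_of_nonneg u0] at h5
    have := Ult v v0 vy
    linarith
  · push Not at hcase
    -- the limit point on the real axis
    obtain ⟨vs, hvs⟩ : ∃ vs : ℕ → ℝ, ∀ j, vs j = y / ((j : ℝ) + 2) := ⟨_, fun _ => rfl⟩
    have vpos : ∀ j, 0 < vs j := fun j => by rw [hvs]; positivity
    have vlt : ∀ j, vs j < y := fun j => by
      rw [hvs, div_lt_iff₀ (by positivity)]
      have : (0 : ℝ) ≤ j := Nat.cast_nonneg j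
      nlinarith
    have vlim : Tendsto vs atTop (𝓝 0) := by
      rw [show vs = fun j : ℕ => y / ((j : ℝ) + 2) from funext hvs]
      apply tendsto_const_nhds.div_atTop
      exact tendsto_atTop_add_const_right _ _ tendsto_natCast_atTop_atTop
    obtain ⟨u, hu, φ, hφ, hlim⟩ := (isCompact_Icc (a := (0 : ℝ)) (b := n)).tendsto_subseq
      (x := fun j => U (vs j)) (fun j => by
        obtain ⟨a, b, _⟩ := hU (vs j) (vpos j) (vlt j).le
        exact ⟨a, b⟩)
    have vlim' : Tendsto (fun j => vs (φ j)) atTop (𝓝 0) := vlim.comp hφ.tendsto_atTop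
    have vlim2 : Tendsto (fun j => vs (φ j)) atTop (𝓝[>] 0) :=
      tendsto_nhdsWithin_iff.2 ⟨vlim', Eventually.of_forall fun j => vpos _⟩
    have inv : Tendsto (fun j => (vs (φ j))⁻¹) atTop atTop := tendsto_inv_nhdsGT_zero.comp vlim2
    have ulim : Tendsto (fun j => U (vs (φ j))) atTop (𝓝 u) := hlim
    have Gge : c ^ 2 ≤ G n u 0 := by
      have t : Tendsto (fun j => ((U (vs (φ j)), vs (φ j)) : ℝ × ℝ)) atTop (𝓝 (u, 0)) :=
        ulim.prodMk_nhds vlim'
      have t2 := ((G_cont n).tendsto (u, 0)).comp t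
      refine ge_of_tendsto t2 (Eventually.of_forall fun j => ?_)
      exact (hcase _ (vpos _) (vlt _)).le
    have up : ∀ b : ℝ, 0 < u + b → Tendsto (fun j => Real.arctan ((U (vs (φ j)) + b) / vs (φ j)))
        atTop (𝓝 (Real.pi / 2)) := by
      intro b hb
      have t1 : Tendsto (fun j => U (vs (φ j)) + b) atTop (𝓝 (u + b)) := ulim.add_const b
      have t2 : Tendsto (fun j => (U (vs (φ j)) + b) / vs (φ j)) atTop atTop := by
        simp only [div_eq_mul_inv]
        exact t1.pos_mul_atTop hb inv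
      exact (Real.tendsto_arctan_atTop.mono_right nhdsWithin_le_nhds).comp t2
    have down : ∀ b : ℝ, u - b < 0 → Tendsto (fun j => Real.arctan ((U (vs (φ j)) - b) / vs (φ j)))
        atTop (𝓝 (-(Real.pi / 2))) := by
      intro b hb
      have t1 : Tendsto (fun j => U (vs (φ j)) - b) atTop (𝓝 (u - b)) := ulim.sub_const b
      have t2 : Tendsto (fun j => (U (vs (φ j)) - b) / vs (φ j)) atTop atBot := by
        simp only [div_eq_mul_inv]
        exact t1.neg_mul_atTop hb inv
      exact (Real.tendsto_arctan_atBot.mono_right nhdsWithin_le_nhds).comp t2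
    have Thj : ∀ j, Th n (U (vs (φ j))) (vs (φ j)) = Real.pi := fun j =>
      (hU _ (vpos _) (vlt _).le).2.2
    have lo : 1 / 2 ≤ u := by
      by_contra hq
      push Not at hq
      have t : Tendsto (fun j => Th n (U (vs (φ j))) (vs (φ j))) atTop (𝓝 0) := by
        unfold Th
        have : (0 : ℝ) = ∑ k ∈ range n, (-(Real.pi / 2) + Real.pi / 2) := by simp
        rw [this]
        apply tendsto_finsetSum
        intro k _
        have k0 : (0 : ℝ) ≤ k := Nat.cast_nonneg k
        exact (down _ (by linarith)).add (up _ (by linarith [hu.1]))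
      have t2 : Tendsto (fun j => Th n (U (vs (φ j))) (vs (φ j))) atTop (𝓝 Real.pi) := by
        simp only [Thj]; exact tendsto_const_nhds
      have := tendsto_nhds_unique t t2
      linarith
    have hi : u ≤ 3 / 2 := by
      by_contra hq
      push Not at hq
      obtain ⟨T, hT⟩ : ∃ T : ℕ → ℝ, ∀ j, T j = ∑ k ∈ range 2,
          (Real.arctan ((U (vs (φ j)) + -((k : ℝ) + 1 / 2)) / vs (φ j)) +
          Real.arctan ((U (vs (φ j)) + ((k : ℝ) + 1 / 2)) / vs (φ j))) := ⟨_, fun _ => rfl⟩
      have t : Tendsto T atTop (𝓝 (∑ k ∈ range 2, (Real.pi / 2 + Real.pi / 2))) := by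
        rw [show T = fun j => ∑ k ∈ range 2,
          (Real.arctan ((U (vs (φ j)) + -((k : ℝ) + 1 / 2)) / vs (φ j)) +
          Real.arctan ((U (vs (φ j)) + ((k : ℝ) + 1 / 2)) / vs (φ j))) from funext hT]
        apply tendsto_finsetSum
        intro k hk
        rw [mem_range] at hk
        have k0 : (0 : ℝ) ≤ k := Nat.cast_nonneg k
        have k1 : (k : ℝ) + 1 ≤ 2 := by exact_mod_cast hk
        exact (up _ (by linarith)).add (up _ (by linarith))
      have le : ∀ j, T j ≤ Real.pi := by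
        intro j
        rw [← Thj j, hT]
        unfold Th
        simp only [← sub_eq_add_neg]
        apply Finset.sum_le_sum_of_subset_of_nonneg (range_subset_range.2 hn)
        intro k _ _
        exact pair_nonneg (hU _ (vpos _) (vlt _).le).1 (vpos _)
      have := le_of_tendsto t (Eventually.of_forall le)
      simp at this
      linarith
    -- a real root
    obtain ⟨m, rfl⟩ : ∃ m, n = m + 1 := ⟨n - 1, by omega⟩
    have gG : ∀ x : ℝ, G (m + 1) x 0 = (∏ k ∈ range (m + 1), (x ^ 2 - ((k : ℝ) + 1 / 2) ^ 2)) ^ 2 := by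
      intro x
      unfold G
      rw [← Finset.prod_pow]
      exact Finset.prod_congr rfl fun k _ => by ring
    have hsign : ∀ x : ℝ, 1 / 2 ≤ x → x ≤ 3 / 2 →
        0 ≤ (-1) ^ m * ∏ k ∈ range (m + 1), (x ^ 2 - ((k : ℝ) + 1 / 2) ^ 2) := by
      intro x h1 h2
      rw [Finset.prod_range_succ', ← mul_assoc]
      have e : (-1) ^ m * ∏ k ∈ range m, (x ^ 2 - (((k + 1 : ℕ) : ℝ) + 1 / 2) ^ 2) =
          ∏ k ∈ range m, ((((k + 1 : ℕ) : ℝ) + 1 / 2) ^ 2 - x ^ 2) := by
        rw [← Finset.card_range m, ← Finset.prod_const, Finset.card_range,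
          ← Finset.prod_mul_distrib]
        exact Finset.prod_congr rfl fun k _ => by ring
      rw [e]
      apply mul_nonneg
      · apply Finset.prod_nonneg
        intro k _
        push_cast
        have k0 : (0 : ℝ) ≤ k := Nat.cast_nonneg k
        nlinarith
      · push_cast
        nlinarith
    have hcu : c ≤ (-1) ^ m * ∏ k ∈ range (m + 1), (u ^ 2 - ((k : ℝ) + 1 / 2) ^ 2) := by
      have h1 := hsign u lo hi
      apply le_of_sq_le_sq _ h1
      rw [mul_pow, ← pow_mul, mul_comm m 2, pow_mul, neg_one_sq, one_pow, one_mul, ← gG]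
      exact Gge
    have cont : ContinuousOn (fun x : ℝ => (-1) ^ m *
        ∏ k ∈ range (m + 1), (x ^ 2 - ((k : ℝ) + 1 / 2) ^ 2)) (Set.Icc (1 / 2) u) := by
      apply Continuous.continuousOn
      fun_prop
    have ivt := intermediate_value_Icc lo cont
    have z : ∏ k ∈ range (m + 1), ((1 / 2 : ℝ) ^ 2 - ((k : ℝ) + 1 / 2) ^ 2) = 0 := by
      apply Finset.prod_eq_zero (mem_range.2 (Nat.succ_pos m))
      norm_num
    obtain ⟨x, hx, hx2⟩ := ivt ⟨by simp only [z, mul_zero]; exact hc0.le, hcu⟩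
    simp only at hx2
    have hw : ((x : ℂ)) ^ 2 = ((x ^ 2 : ℝ) : ℂ) := by push_cast; ring
    have hroot : P (m + 1) (x : ℂ) + (-1) ^ (m + 1) * (c : ℂ) = 0 := by
      rw [P_real (m + 1) hw]
      generalize ∏ k ∈ range (m + 1), (x ^ 2 - ((k : ℝ) + 1 / 2) ^ 2) = Q at hx2
      have h1 : ((-1 : ℝ) ^ m) ^ 2 = 1 := by
        rw [← pow_mul, mul_comm, pow_mul, neg_one_sq, one_pow]
      have hQ : Q = (-1) ^ m * c := by
        rw [← hx2, ← mul_assoc, ← sq, h1, one_mul]
      rw [hQ, pow_succ]
      push_cast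
      ring
    have h5 := hout _ hroot
    rw [Complex.ofReal_re, abs_of_nonneg (by linarith [hx.1])] at h5
    linarith [hx.2]

end Q191.Cn
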