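import Mathlib

/-! Upper bound: the imaginary part of a geometric mean of `y + i (m + 1/2)`. -/

set_option autoImplicit false

open Finset Filter Topology

namespace Q191.Cn

/-- the sum of the angles of `y + i (m + 1/2)`, `m < N` -/
noncomputable def Sm (N : ℕ) (y : ℝ) : ℝ := ∑ m ∈ range N, Real.arctan (((m : ℝ) + 1 / 2) / y)

/-- the sum of the logarithms of the absolute values of `y + i (m + 1/2)`, `m < N` -/
noncomputable def Lm (N : ℕ) (y : ℝ) : ℝ :=
  ∑ m ∈ range N, Real.log (((m : ℝ) + 1 / 2) ^ 2 + y ^ 2) / 2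

theorem tang {b t : ℝ} (hb : 0 < b) (hb2 : b < Real.pi / 2) (ht : 0 ≤ t) :
    Real.sin (2 * t - b) ≤ Real.sin b + Real.cos b * (2 * (t - b)) := by
  have cb : 0 < Real.cos b := Real.cos_pos_of_mem_Ioo ⟨by linarith, hb2⟩
  have sb : 0 < Real.sin b := Real.sin_pos_of_pos_of_lt_pi hb (by linarith [Real.pi_pos])
  rcases le_total b t with h | h
  · -- `d = 2 (t - b) ≥ 0`
    obtain ⟨d, hd⟩ : ∃ d, d = 2 * (t - b) := ⟨_, rfl⟩
    have hd0 : 0 ≤ d := by rw [hd]; linarith
    rw [← hd, show 2 * t - b = b + d by rw [hd]; ring, Real.sin_add]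
    have h1 := Real.cos_le_one d
    have h2 := Real.sin_le hd0
    nlinarith
  · obtain ⟨r, hr⟩ : ∃ r, r = b - t := ⟨_, rfl⟩
    have hr0 : 0 ≤ r := by rw [hr]; linarith
    have hrb : r ≤ b := by rw [hr]; linarith
    have e : 2 * t - b = b - 2 * r := by rw [hr]; ring
    rw [e, show 2 * (t - b) = -(2 * r) by rw [hr]; ring, Real.sin_sub, Real.cos_two_mul,
      Real.sin_two_mul]
    have cr : 0 < Real.cos r := Real.cos_pos_of_mem_Ioo ⟨by linarith, by linarith⟩
    have sr : 0 ≤ Real.sin r := Real.sin_nonneg_of_nonneg_of_le_pi hr0 (by linarith [Real.pi_pos])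
    have tr := Real.le_tan hr0 (by linarith)
    rw [Real.tan_eq_sin_div_cos, le_div_iff₀ cr] at tr
    have hs : 0 ≤ Real.sin (b - r) :=
      Real.sin_nonneg_of_nonneg_of_le_pi (by linarith) (by linarith [Real.pi_pos])
    rw [Real.sin_sub] at hs
    have e2 := Real.sin_sq_add_cos_sq r
    -- the claim is `cos b (r - sin r cos r) ≤ sin b (sin r)²`
    have key : Real.cos b * (r - Real.sin r * Real.cos r) ≤ Real.sin b * Real.sin r ^ 2 := by
      have h1 : Real.cos r * (r - Real.sin r * Real.cos r) ≤ Real.sin r ^ 3 := by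
        have : Real.cos r * (r - Real.sin r * Real.cos r) =
          r * Real.cos r - Real.sin r * Real.cos r ^ 2 := by ring
        rw [this]
        have : Real.sin r ^ 3 = Real.sin r - Real.sin r * Real.cos r ^ 2 := by
          linear_combination Real.sin r * e2
        linarith
      have h2 : Real.cos b * Real.sin r ^ 3 ≤ Real.sin b * Real.cos r * Real.sin r ^ 2 := by
        have : 0 ≤ Real.sin r ^ 2 := sq_nonneg _
        nlinarith
      have h3 : Real.cos r * (Real.cos b * (r - Real.sin r * Real.cos r)) ≤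
          Real.cos r * (Real.sin b * Real.sin r ^ 2) := by
        have := mul_le_mul_of_nonneg_left h1 cb.le
        linarith
      exact le_of_mul_le_mul_left h3 cr
    have e3 : Real.cos r ^ 2 = 1 - Real.sin r ^ 2 := by linarith
    rw [e3]
    linarith

theorem tang_lt {b t : ℝ} (hb : 0 < b) (hb2 : b < Real.pi / 2) (ht : b < t) :
    Real.sin (2 * t - b) < Real.sin b + Real.cos b * (2 * (t - b)) := by
  have cb : 0 < Real.cos b := Real.cos_pos_of_mem_Ioo ⟨by linarith, hb2⟩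
  have sb : 0 < Real.sin b := Real.sin_pos_of_pos_of_lt_pi hb (by linarith [Real.pi_pos])
  obtain ⟨d, hd⟩ : ∃ d, d = 2 * (t - b) := ⟨_, rfl⟩
  have hd0 : 0 < d := by rw [hd]; linarith
  rw [← hd, show 2 * t - b = b + d by rw [hd]; ring, Real.sin_add]
  have h1 := Real.cos_le_one d
  have h2 := Real.sin_lt hd0
  nlinarith

theorem dSm (N : ℕ) {y : ℝ} (hy : 0 < y) : HasDerivAt (Sm N)
    (-∑ m ∈ range N, ((m : ℝ) + 1 / 2) / (((m : ℝ) + 1 / 2) ^ 2 + y ^ 2)) y := by
  unfold Sm
  rw [← Finset.sum_neg_distrib]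
  apply HasDerivAt.fun_sum
  intro m _
  have h1 : HasDerivAt (fun y : ℝ => ((m : ℝ) + 1 / 2) / y) (((m : ℝ) + 1 / 2) * (-(y ^ 2)⁻¹)) y :=
    (hasDerivAt_inv hy.ne').const_mul _
  refine h1.arctan.congr_deriv ?_
  have : 0 < ((m : ℝ) + 1 / 2) ^ 2 + y ^ 2 := by positivity
  have : (0:ℝ) < 1 + (((m : ℝ) + 1 / 2) / y) ^ 2 := by positivity
  field_simp
  ring

theorem dLm (N : ℕ) {y : ℝ} (hy : 0 < y) : HasDerivAt (Lm N)
    (∑ m ∈ range N, y / (((m : ℝ) + 1 / 2) ^ 2 + y ^ 2)) y := by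
  unfold Lm
  apply HasDerivAt.fun_sum
  intro m _
  have h0 : 0 < ((m : ℝ) + 1 / 2) ^ 2 + y ^ 2 := by positivity
  have h1 : HasDerivAt (fun y : ℝ => ((m : ℝ) + 1 / 2) ^ 2 + y ^ 2) (2 * y) y := by
    have := (hasDerivAt_pow 2 y).const_add (((m : ℝ) + 1 / 2) ^ 2)
    simpa using this
  refine ((h1.log h0.ne').div_const 2).congr_deriv ?_
  field_simp

theorem arctan_pos' {m : ℕ} {y : ℝ} (hy : 0 < y) : 0 < Real.arctan (((m : ℝ) + 1 / 2) / y) :=
  Real.arctan_pos.2 (by positivity)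

theorem Sm_pos {N : ℕ} (hN : 0 < N) {y : ℝ} (hy : 0 < y) : 0 < Sm N y :=
  Finset.sum_pos (fun _ _ => arctan_pos' hy) (nonempty_range_iff.2 hN.ne')

theorem Sm_lt {N : ℕ} (hN : 0 < N) (y : ℝ) : Sm N y < N * (Real.pi / 2) := by
  have h := Finset.sum_lt_sum_of_nonempty (nonempty_range_iff.2 hN.ne')
    (fun (m : ℕ) _ => Real.arctan_lt_pi_div_two (((m : ℝ) + 1 / 2) / y))
  simpa [Sm] using h

/-- The geometric mean times the sine of the mean angle is increasing in `y`. -/
theorem deriv_pos {N : ℕ} (hN : 2 ≤ N) {y : ℝ} (hy : 0 < y) :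
    0 < (∑ m ∈ range N, y / (((m : ℝ) + 1 / 2) ^ 2 + y ^ 2)) * Real.sin (Sm N y / N) +
      Real.cos (Sm N y / N) *
        (-∑ m ∈ range N, ((m : ℝ) + 1 / 2) / (((m : ℝ) + 1 / 2) ^ 2 + y ^ 2)) := by
  have hN0 : (0 : ℝ) < N := by exact_mod_cast (by omega : 0 < N)
  obtain ⟨b, hb⟩ : ∃ b, b = Sm N y / N := ⟨_, rfl⟩
  have b0 : 0 < b := by rw [hb]; exact div_pos (Sm_pos (by omega) hy) hN0
  have b1 : b < Real.pi / 2 := by
    rw [hb, div_lt_iff₀ hN0, mul_comm]; exact Sm_lt (by omega) y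
  have hS : Sm N y = N * b := by rw [hb]; field_simp
  rw [← hb]
  obtain ⟨θ, hθ⟩ : ∃ θ : ℕ → ℝ, ∀ m, θ m = Real.arctan (((m : ℝ) + 1 / 2) / y) :=
    ⟨_, fun _ => rfl⟩
  have hθs : ∑ m ∈ range N, θ m = N * b := by
    rw [← hS]; unfold Sm; exact Finset.sum_congr rfl fun m _ => hθ m
  have term : ∀ m : ℕ, y / (((m : ℝ) + 1 / 2) ^ 2 + y ^ 2) * Real.sin b -
      Real.cos b * (((m : ℝ) + 1 / 2) / (((m : ℝ) + 1 / 2) ^ 2 + y ^ 2)) =
      (1 / (2 * y)) * (Real.sin b - Real.sin (2 * θ m - b)) := by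
    intro m
    obtain ⟨x, hx⟩ : ∃ x : ℝ, x = (m : ℝ) + 1 / 2 := ⟨_, rfl⟩
    rw [hθ, ← hx, Real.sin_sub, Real.sin_two_mul, Real.cos_two_mul]
    have c2 : Real.cos (Real.arctan (x / y)) ^ 2 = y ^ 2 / (x ^ 2 + y ^ 2) := by
      rw [Real.cos_sq_arctan]
      field_simp
      ring
    have sc : Real.sin (Real.arctan (x / y)) * Real.cos (Real.arctan (x / y)) =
        x * y / (x ^ 2 + y ^ 2) := by
      have h1 : Real.sin (Real.arctan (x / y)) = x / y * Real.cos (Real.arctan (x / y)) := by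
        have hc := (Real.cos_arctan_pos (x / y)).ne'
        have := Real.tan_arctan (x / y)
        rw [Real.tan_eq_sin_div_cos, div_eq_iff hc] at this
        exact this
      rw [h1, mul_assoc, ← sq, c2]
      field_simp
    rw [show 2 * Real.sin (Real.arctan (x / y)) * Real.cos (Real.arctan (x / y)) =
      2 * (Real.sin (Real.arctan (x / y)) * Real.cos (Real.arctan (x / y))) by ring, sc, c2]
    have : 0 < x ^ 2 + y ^ 2 := by positivity
    field_simp
    ring
  have e : (∑ m ∈ range N, y / (((m : ℝ) + 1 / 2) ^ 2 + y ^ 2)) * Real.sin b + Real.cos b *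
        (-∑ m ∈ range N, ((m : ℝ) + 1 / 2) / (((m : ℝ) + 1 / 2) ^ 2 + y ^ 2)) =
      (1 / (2 * y)) * ∑ m ∈ range N, (Real.sin b - Real.sin (2 * θ m - b)) := by
    rw [Finset.mul_sum, ← Finset.sum_congr rfl (fun m _ => term m), Finset.sum_sub_distrib,
      ← Finset.sum_mul, ← Finset.mul_sum]
    ring
  rw [e]
  have hy2 : 0 < 1 / (2 * y) := by positivity
  apply mul_pos hy2
  -- add a sum that vanishes
  have z : ∑ m ∈ range N, Real.cos b * (2 * (θ m - b)) = 0 := by
    rw [← Finset.mul_sum, ← Finset.mul_sum, Finset.sum_sub_distrib, hθs]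
    simp
  have ge : ∀ m ∈ range N, 0 ≤ (Real.sin b - Real.sin (2 * θ m - b)) +
      Real.cos b * (2 * (θ m - b)) := by
    intro m _
    have := tang b0 b1 (t := θ m) (by rw [hθ]; exact (arctan_pos' hy).le)
    linarith
  have ex : ∃ m ∈ range N, b < θ m := by
    by_contra hcon
    push Not at hcon
    have h1 : θ 0 < θ 1 := by
      rw [hθ, hθ]
      apply Real.arctan_strictMono
      apply div_lt_div_of_pos_right _ hy
      norm_num
    have h2 : θ 1 ≤ b := hcon 1 (by rw [mem_range]; omega)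
    have := Finset.sum_lt_sum (s := range N) (f := θ) (g := fun _ => b) hcon
      ⟨0, by rw [mem_range]; omega, by linarith⟩
    rw [hθs] at this
    simp at this
  have pos : 0 < ∑ m ∈ range N, ((Real.sin b - Real.sin (2 * θ m - b)) +
      Real.cos b * (2 * (θ m - b))) := by
    obtain ⟨m, hm, hbm⟩ := ex
    refine Finset.sum_pos' ge ⟨m, hm, ?_⟩
    have := tang_lt b0 b1 hbm
    linarith
  rw [Finset.sum_add_distrib, z, add_zero] at pos
  exact pos

/-- `log` of the geometric mean times the sine of the mean angle -/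
noncomputable def K2 (N : ℕ) (y : ℝ) : ℝ := Lm N y / N + Real.log (Real.sin (Sm N y / N))

theorem sin_pos' {N : ℕ} (hN : 0 < N) {y : ℝ} (hy : 0 < y) : 0 < Real.sin (Sm N y / N) := by
  have hN0 : (0 : ℝ) < N := by exact_mod_cast hN
  apply Real.sin_pos_of_pos_of_lt_pi (div_pos (Sm_pos hN hy) hN0)
  have : Sm N y / N < Real.pi / 2 := by
    rw [div_lt_iff₀ hN0, mul_comm]; exact Sm_lt hN y
  linarith [Real.pi_pos]

theorem K2_mono {N : ℕ} (hN : 2 ≤ N) : StrictMonoOn (K2 N) (Set.Ioi 0) := by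
  have hN0 : (0 : ℝ) < N := by exact_mod_cast (by omega : 0 < N)
  have hd : ∀ y : ℝ, 0 < y → HasDerivAt (K2 N)
      ((∑ m ∈ range N, y / (((m : ℝ) + 1 / 2) ^ 2 + y ^ 2)) / N +
        Real.cos (Sm N y / N) *
        ((-∑ m ∈ range N, ((m : ℝ) + 1 / 2) / (((m : ℝ) + 1 / 2) ^ 2 + y ^ 2)) / N) /
        Real.sin (Sm N y / N)) y := by
    intro y hy
    exact ((dLm N hy).div_const _).add
      ((((dSm N hy).div_const (N : ℝ)).sin).log (sin_pos' (by omega) hy).ne')
  apply strictMonoOn_of_deriv_pos (convex_Ioi 0)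
    (fun y hy => (hd y hy).continuousAt.continuousWithinAt)
  intro y hy
  rw [interior_Ioi, Set.mem_Ioi] at hy
  rw [(hd y hy).deriv]
  have s0 := sin_pos' (N := N) (by omega) hy
  have p := deriv_pos hN hy
  generalize ∑ m ∈ range N, y / (((m : ℝ) + 1 / 2) ^ 2 + y ^ 2) = A at *
  generalize ∑ m ∈ range N, ((m : ℝ) + 1 / 2) / (((m : ℝ) + 1 / 2) ^ 2 + y ^ 2) = B at *
  have e : A / N + Real.cos (Sm N y / N) * ((-B) / N) / Real.sin (Sm N y / N) =
      (A * Real.sin (Sm N y / N) + Real.cos (Sm N y / N) * (-B)) /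
        (N * Real.sin (Sm N y / N)) := by
    field_simp
  rw [e]
  positivity

theorem sum_half (N : ℕ) : ∑ m ∈ range N, ((m : ℝ) + 1 / 2) = (N : ℝ) ^ 2 / 2 := by
  induction N with
  | zero => simp
  | succ N ih => rw [Finset.sum_range_succ, ih]; push_cast; ring

theorem arctan_le_self' {x : ℝ} (hx : 0 ≤ x) : Real.arctan x ≤ x := by
  have h := Real.le_tan (Real.arctan_nonneg.2 hx) (Real.arctan_lt_pi_div_two x)
  rwa [Real.tan_arctan] at h

theorem Sm_le (N : ℕ) {y : ℝ} (hy : 0 < y) : Sm N y ≤ (N : ℝ) ^ 2 / 2 / y := by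
  unfold Sm
  rw [← sum_half, Finset.sum_div]
  apply Finset.sum_le_sum
  intro m _
  exact arctan_le_self' (by positivity)

/-- **Upper bound.** The geometric mean of the absolute values times the sine of the mean angle is
smaller than the mean of the imaginary parts. -/
theorem K2_lt {N : ℕ} (hN : 2 ≤ N) {y : ℝ} (hy : 0 < y) : K2 N y < Real.log (N / 2) := by
  have hN0 : (0 : ℝ) < N := by exact_mod_cast (by omega : 0 < N)
  have le : K2 N (y + 1) ≤ Real.log (N / 2) := by
    obtain ⟨C, hC⟩ : ∃ C : ℝ, C = (∑ m ∈ range N, ((m : ℝ) + 1 / 2) ^ 2) / (2 * N) := ⟨_, rfl⟩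
    have up : ∀ z : ℝ, 0 < z → K2 N z ≤ Real.log (N / 2) + C / z ^ 2 := by
      intro z hz
      have h1 : Lm N z / N ≤ Real.log z + C / z ^ 2 := by
        rw [div_le_iff₀ hN0]
        have : ∀ m ∈ range N, Real.log (((m : ℝ) + 1 / 2) ^ 2 + z ^ 2) / 2 ≤
            Real.log z + ((m : ℝ) + 1 / 2) ^ 2 / (2 * z ^ 2) := by
          intro m _
          have e : ((m : ℝ) + 1 / 2) ^ 2 + z ^ 2 = z ^ 2 * (1 + ((m : ℝ) + 1 / 2) ^ 2 / z ^ 2) := by
            field_simp
            ring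
          rw [e, Real.log_mul (by positivity) (by positivity), Real.log_pow]
          have := Real.log_le_sub_one_of_pos
            (show 0 < 1 + ((m : ℝ) + 1 / 2) ^ 2 / z ^ 2 by positivity)
          have e2 : ((m : ℝ) + 1 / 2) ^ 2 / (2 * z ^ 2) = ((m : ℝ) + 1 / 2) ^ 2 / z ^ 2 / 2 := by
            field_simp
          rw [e2]
          push_cast
          linarith
        unfold Lm
        refine (Finset.sum_le_sum this).trans ?_
        rw [Finset.sum_add_distrib, ← Finset.sum_div, hC]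
        simp only [Finset.sum_const, card_range, nsmul_eq_mul]
        apply le_of_eq
        generalize ∑ m ∈ range N, ((m : ℝ) + 1 / 2) ^ 2 = A
        field_simp
      have h2 : Real.log (Real.sin (Sm N z / N)) ≤ Real.log (N / 2) - Real.log z := by
        rw [← Real.log_div (by positivity) hz.ne']
        apply Real.log_le_log (sin_pos' (by omega) hz)
        have h3 : 0 ≤ Sm N z / N := (div_pos (Sm_pos (by omega) hz) hN0).le
        refine (Real.sin_le h3).trans ?_
        rw [div_le_iff₀ hN0]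
        refine (Sm_le N hz).trans (le_of_eq ?_)
        field_simp
      unfold K2
      linarith
    have lim : Tendsto (fun z : ℝ => Real.log (N / 2) + C / z ^ 2) atTop
        (𝓝 (Real.log (N / 2) + 0)) := by
      apply tendsto_const_nhds.add
      exact tendsto_const_nhds.div_atTop (tendsto_pow_atTop (by norm_num))
    rw [add_zero] at lim
    refine ge_of_tendsto lim ?_
    filter_upwards [eventually_ge_atTop (y + 1)] with z hz
    refine le_trans ?_ (up z (by linarith))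
    exact (K2_mono hN).monotoneOn (Set.mem_Ioi.2 (by linarith)) (Set.mem_Ioi.2 (by linarith)) hz
  exact lt_of_lt_of_le (K2_mono hN (Set.mem_Ioi.2 hy) (Set.mem_Ioi.2 (by linarith))
    (by linarith)) le

end Q191.Cn
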